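import Mathlib

namespace Pool.Agent.H.MP_5a4e9f_an
open Set Filter Topology

lemma der_of {f f' : ℝ → ℝ} (hf : Continuous f) (hf' : Continuous f') {s : Set ℝ}
    (hs : s.Countable) (hd : ∀ x, x ∉ s → HasDerivAt f (f' x) x) (x : ℝ) :
    HasDerivAt f (f' x) x := by
  have e : f = fun y => f 0 + ∫ t in (0:ℝ)..y, f' t := by
    funext y
    rw [MeasureTheory.integral_eq_of_hasDerivAt_off_countable f f' hs hf.continuousOn
      (fun z hz => hd z hz.2) (hf'.intervalIntegrable _ _)]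
    ring
  rw [e]
  exact ((hf'.integral_hasStrictDerivAt 0 x).hasDerivAt).const_add _

lemma hd_eq {f g : ℝ → ℝ} {a b x : ℝ} (h : HasDerivAt f a x) (e1 : g = f) (e2 : b = a) :
    HasDerivAt g b x := e1 ▸ e2 ▸ h

noncomputable def ph (n : ℕ) (x : ℝ) : ℝ := 6 * (1 / (1 - x) - 1 / (1 + x)) + (n + 3 / 2) * x
noncomputable def pd (n : ℕ) (x : ℝ) : ℝ := 6 * ((1 / (1 - x)) ^ 2 + (1 / (1 + x)) ^ 2) + (n + 3 / 2)
noncomputable def dd (n : ℕ) (x y : ℝ) : ℝ :=
  6 * (1 / (1 - x) * (1 / (1 - y)) + 1 / (1 + x) * (1 / (1 + y))) + (n + 3 / 2)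

lemma ph_sub (n : ℕ) {x y : ℝ} (hx : |x| < 1) (hy : |y| < 1) :
    ph n y - ph n x = (y - x) * dd n x y := by
  obtain ⟨h1, h2⟩ := abs_lt.1 hx
  obtain ⟨h3, h4⟩ := abs_lt.1 hy
  have : 1 - x ≠ 0 := by linarith
  have : 1 + x ≠ 0 := by linarith
  have : 1 - y ≠ 0 := by linarith
  have : 1 + y ≠ 0 := by linarith
  unfold ph dd; field_simp; ring

lemma half_le {x : ℝ} (h1 : 0 < x) (h2 : x ≤ 2) : 1 / 2 ≤ 1 / x :=
  one_div_le_one_div_of_le h1 h2

lemma dd_ge (n : ℕ) {x y : ℝ} (hx : |x| < 1) (hy : |y| < 1) : 9 / 2 ≤ dd n x y := by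
  obtain ⟨h1, h2⟩ := abs_lt.1 hx
  obtain ⟨h3, h4⟩ := abs_lt.1 hy
  have a1 := half_le (x := 1 - x) (by linarith) (by linarith)
  have a2 := half_le (x := 1 + x) (by linarith) (by linarith)
  have a3 := half_le (x := 1 - y) (by linarith) (by linarith)
  have a4 := half_le (x := 1 + y) (by linarith) (by linarith)
  have : (0:ℝ) ≤ n := n.cast_nonneg
  unfold dd
  nlinarith [mul_le_mul a1 a3 (by norm_num) (by linarith), mul_le_mul a2 a4 (by norm_num) (by linarith)]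

lemma ph_lt (n : ℕ) {x y : ℝ} (hx : |x| < 1) (hy : |y| < 1) (h : x < y) : ph n x < ph n y := by
  have := ph_sub n hx hy
  have := dd_ge n hx hy
  nlinarith

lemma ph_neg (n : ℕ) (x : ℝ) : ph n (-x) = -ph n x := by
  unfold ph; simp only [sub_neg_eq_add, ← sub_eq_add_neg]; ring

lemma ph_der (n : ℕ) {x : ℝ} (hx : |x| < 1) : HasDerivAt (ph n) (pd n x) x := by
  obtain ⟨h1, h2⟩ := abs_lt.1 hx
  have e1 : 1 - x ≠ 0 := by linarith
  have e2 : 1 + x ≠ 0 := by linarith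
  have a := ((hasDerivAt_id x).const_sub 1).inv e1
  have b := ((hasDerivAt_id x).const_add 1).inv e2
  have c := ((a.sub b).const_mul 6).add ((hasDerivAt_id x).const_mul ((n:ℝ) + 3 / 2))
  refine hd_eq c ?_ ?_
  · funext y; simp [ph]
  · simp only [pd, id]; field_simp; ring

lemma pd_ge (n : ℕ) {x : ℝ} (hx : |x| < 1) :
    6 + n ≤ pd n x ∧ 1 / (1 - x) ≤ pd n x ∧ 1 / (1 + x) ≤ pd n x := by
  obtain ⟨h1, h2⟩ := abs_lt.1 hx
  have a1 := half_le (x := 1 - x) (by linarith) (by linarith)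
  have a2 := half_le (x := 1 + x) (by linarith) (by linarith)
  have : (0:ℝ) ≤ n := n.cast_nonneg
  unfold pd
  refine ⟨?_, by nlinarith, by nlinarith⟩
  rcases le_total 0 x with h | h
  · have : 1 ≤ 1 / (1 - x) := by rw [le_div_iff₀ (by linarith)]; linarith
    nlinarith
  · have : 1 ≤ 1 / (1 + x) := by rw [le_div_iff₀ (by linarith)]; linarith
    nlinarith

lemma ph_surj (n : ℕ) (t : ℝ) : ∃ x, |x| < 1 ∧ ph n x = t := by
  have h0 := abs_nonneg t
  set x := 1 - 1 / (|t| + 1) with hx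
  have p1 : 0 < 1 / (|t| + 1) := by positivity
  have p2 : 1 / (|t| + 1) ≤ 1 := by rw [div_le_one (by linarith)]; linarith
  have x0 : 0 ≤ x := by linarith
  have x1 : x < 1 := by linarith
  have hb : |t| ≤ ph n x := by
    have e : 1 / (1 - x) = |t| + 1 := by rw [hx]; simp
    have : 1 / (1 + x) ≤ 1 := by rw [div_le_one (by linarith)]; linarith
    have : (0:ℝ) ≤ n := n.cast_nonneg
    unfold ph; rw [e]; nlinarith
  have hc : ContinuousOn (ph n) (Icc (-x) x) := fun y hy =>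
    (ph_der n (abs_lt.2 ⟨by linarith [hy.1], by linarith [hy.2]⟩)).continuousAt.continuousWithinAt
  obtain ⟨y, hy, e⟩ := intermediate_value_Icc (by linarith) hc
    (show t ∈ Icc (ph n (-x)) (ph n x) from
      ⟨by rw [ph_neg]; linarith [neg_abs_le t], by linarith [le_abs_self t]⟩)
  exact ⟨y, abs_lt.2 ⟨by linarith [hy.1], by linarith [hy.2]⟩, e⟩

noncomputable def ps (n : ℕ) (t : ℝ) : ℝ := (ph_surj n t).choose
lemma ps_abs (n : ℕ) (t : ℝ) : |ps n t| < 1 := (ph_surj n t).choose_spec.1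
lemma ph_ps (n : ℕ) (t : ℝ) : ph n (ps n t) = t := (ph_surj n t).choose_spec.2
lemma ps_ph (n : ℕ) {x : ℝ} (hx : |x| < 1) : ps n (ph n x) = x := by
  rcases lt_trichotomy (ps n (ph n x)) x with h | h | h
  · have := ph_lt n (ps_abs _ _) hx h; rw [ph_ps] at this; exact absurd this (lt_irrefl _)
  · exact h
  · have := ph_lt n hx (ps_abs _ _) h; rw [ph_ps] at this; exact absurd this (lt_irrefl _)
lemma ps_mono (n : ℕ) : StrictMono (ps n) := by
  intro s t h
  by_contra hc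
  rcases (not_lt.1 hc).eq_or_lt with e | e
  · have := congrArg (ph n) e; rw [ph_ps, ph_ps] at this; linarith
  · have := ph_lt n (ps_abs _ _) (ps_abs _ _) e; rw [ph_ps, ph_ps] at this; linarith
lemma ps_neg (n : ℕ) (t : ℝ) : ps n (-t) = -ps n t := by
  have : |-ps n t| < 1 := by rw [abs_neg]; exact ps_abs _ _
  rw [← ps_ph n this, ph_neg, ph_ps]

lemma ps_der (n : ℕ) (t : ℝ) : HasDerivAt (ps n) (pd n (ps n t))⁻¹ t := by
  have hc : ContinuousAt (ps n) t := by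
    refine continuousAt_of_monotoneOn_of_image_mem_nhds ((ps_mono n).monotone.monotoneOn univ)
      univ_mem (mem_of_superset (Ioo_mem_nhds (abs_lt.1 (ps_abs n t)).1 (abs_lt.1 (ps_abs n t)).2) ?_)
    intro y hy
    exact ⟨ph n y, trivial, ps_ph n (abs_lt.2 hy)⟩
  have := (pd_ge n (ps_abs n t)).1
  have : (0:ℝ) ≤ n := n.cast_nonneg
  exact HasDerivAt.of_local_left_inverse hc (ph_der n (ps_abs n t)) (by linarith)
    (Eventually.of_forall (ph_ps n))

noncomputable def wf (n m : ℕ) (c x : ℝ) : ℝ := if |x| < 1 then ps m (ph n x + c) else x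
lemma wf_in (n m : ℕ) (c : ℝ) {x : ℝ} (h : |x| < 1) : wf n m c x = ps m (ph n x + c) := if_pos h
lemma wf_out (n m : ℕ) (c : ℝ) {x : ℝ} (h : 1 ≤ |x|) : wf n m c x = x := if_neg (not_lt.2 h)
lemma wf_ps (n m : ℕ) (c t : ℝ) : wf n m c (ps n t) = ps m (t + c) := by
  rw [wf_in _ _ _ (ps_abs _ _), ph_ps]
lemma wf_comp (n m l : ℕ) (c d x : ℝ) : wf m l d (wf n m c x) = wf n l (c + d) x := by
  by_cases h : |x| < 1
  · rw [wf_in _ _ _ h, wf_ps, wf_in _ _ _ h, add_assoc]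
  · push Not at h
    rw [wf_out _ _ _ h, wf_out _ _ _ h, wf_out _ _ _ h]
lemma wf_id (n : ℕ) (x : ℝ) : wf n n 0 x = x := by
  by_cases h : |x| < 1
  · rw [wf_in _ _ _ h, add_zero, ps_ph _ h]
  · exact if_neg h
lemma wf_mono (n m : ℕ) (c : ℝ) : StrictMono (wf n m c) := by
  intro x y h
  by_cases hx : |x| < 1 <;> by_cases hy : |y| < 1
  · rw [wf_in _ _ _ hx, wf_in _ _ _ hy]
    exact ps_mono m (by linarith [ph_lt n hx hy h])
  · rw [wf_in _ _ _ hx, wf_out _ _ _ (not_lt.1 hy)]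
    have := abs_lt.1 (ps_abs m (ph n x + c))
    have := abs_lt.1 hx
    rcases le_abs.1 (not_lt.1 hy) with h | h <;> linarith
  · rw [wf_in _ _ _ hy, wf_out _ _ _ (not_lt.1 hx)]
    have := abs_lt.1 (ps_abs m (ph n y + c))
    have := abs_lt.1 hy
    rcases le_abs.1 (not_lt.1 hx) with h | h <;> linarith
  · rw [wf_out _ _ _ (not_lt.1 hx), wf_out _ _ _ (not_lt.1 hy)]; exact h
lemma wf_abs (n m : ℕ) (c : ℝ) {x : ℝ} (h : |x| ≤ 1) : |wf n m c x| ≤ 1 := by
  rcases h.eq_or_lt with h | h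
  · rw [wf_out _ _ _ h.ge]; exact h.le
  · rw [wf_in _ _ _ h]; exact (ps_abs _ _).le
lemma wf_cont (n m : ℕ) (c : ℝ) : Continuous (wf n m c) :=
  ((wf_mono n m c).orderIsoOfSurjective _ (fun y => ⟨wf m n (-c) y, by
    rw [wf_comp, neg_add_cancel, wf_id]⟩)).continuous

lemma est (n m : ℕ) {c x y D e : ℝ} (hx : |x| < 1) (hy : |y| < 1) (h : ph m y = ph n x + c)
    (hD : |c| + |(n:ℝ) - m| ≤ D) (he : 0 < e) :
    |pd m y - pd n x| ≤ e * pd n x + (D ^ 2 / (6 * e) + D ^ 2 / 6 + 2 * D) := by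
  obtain ⟨h1, h2⟩ := abs_lt.1 hx
  obtain ⟨h3, h4⟩ := abs_lt.1 hy
  have e1 : 0 < 1 - x := by linarith
  have e2 : 0 < 1 + x := by linarith
  have e3 : 0 < 1 - y := by linarith
  have e4 : 0 < 1 + y := by linarith
  have hn : (0:ℝ) ≤ n := n.cast_nonneg
  obtain ⟨A, hA⟩ : ∃ A, A = 1 / (1 - x) := ⟨_, rfl⟩
  obtain ⟨B, hB⟩ : ∃ A, A = 1 / (1 + x) := ⟨_, rfl⟩
  obtain ⟨A', hA'⟩ : ∃ A, A = 1 / (1 - y) := ⟨_, rfl⟩
  obtain ⟨B', hB'⟩ : ∃ A, A = 1 / (1 + y) := ⟨_, rfl⟩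
  have i1 : A ^ 2 + B ^ 2 = (A - B) ^ 2 + (A + B) := by rw [hA, hB]; field_simp; ring
  have i2 : A' ^ 2 + B' ^ 2 = (A' - B') ^ 2 + (A' + B') := by rw [hA', hB']; field_simp; ring
  have i3 : A' - A = (y - x) * (A * A') := by rw [hA, hA']; field_simp; ring
  have i4 : B' - B = -((y - x) * (B * B')) := by rw [hB, hB']; field_simp; ring
  have p1 : 0 < A * A' := by rw [hA, hA']; positivity
  have p2 : 0 < B * B' := by rw [hB, hB']; positivity
  have pA : 0 < A := by rw [hA]; positivity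
  have pB : 0 < B := by rw [hB]; positivity
  unfold ph at h
  unfold pd
  rw [← hA, ← hB, ← hA', ← hB'] at h ⊢
  have b1 : |c + (n - m) * y| ≤ D := by
    refine (abs_add_le _ _).trans ?_
    rw [abs_mul]
    nlinarith [abs_nonneg ((n:ℝ) - m), abs_nonneg y]
  obtain ⟨d, hd⟩ : ∃ d, d = (A' - B') - (A - B) := ⟨_, rfl⟩
  obtain ⟨s, hs⟩ : ∃ d, d = (A' + B') - (A + B) := ⟨_, rfl⟩
  have k1 : 6 * d + (n + 3 / 2) * (y - x) = c + (n - m) * y := by rw [hd]; linarith
  have k2 : |6 * d| ≤ D ∧ |s| ≤ |d| := by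
    have ed : d = (y - x) * (A * A') + (y - x) * (B * B') := by linarith
    have es : s = (y - x) * (A * A') - (y - x) * (B * B') := by linarith
    obtain ⟨b2, b3⟩ := abs_le.1 b1
    rcases le_total 0 (y - x) with g | g
    · have := mul_nonneg g p1.le
      have := mul_nonneg g p2.le
      have := mul_nonneg (show (0:ℝ) ≤ n + 3 / 2 by linarith) g
      rw [abs_of_nonneg (show 0 ≤ d by linarith), abs_of_nonneg (by linarith)]
      exact ⟨by linarith, abs_le.2 ⟨by linarith, by linarith⟩⟩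
    · have := mul_nonpos_of_nonpos_of_nonneg g p1.le
      have := mul_nonpos_of_nonpos_of_nonneg g p2.le
      have := mul_nonpos_of_nonneg_of_nonpos (show (0:ℝ) ≤ n + 3 / 2 by linarith) g
      rw [abs_of_nonpos (show d ≤ 0 by linarith), abs_of_nonpos (by linarith)]
      exact ⟨by linarith, abs_le.2 ⟨by linarith, by linarith⟩⟩
  obtain ⟨Q, hQ⟩ : ∃ Q, Q = A - B := ⟨_, rfl⟩
  have e5 : 6 * (A' ^ 2 + B' ^ 2) + (m + 3 / 2) - (6 * (A ^ 2 + B ^ 2) + (n + 3 / 2))
      = 6 * d * (2 * Q) + 6 * d * d + 6 * s - (n - m) := by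
    rw [i1, i2, hd, hs, hQ]; ring
  rw [e5, i1, ← hQ]
  have D0 : 0 ≤ D := (abs_nonneg _).trans b1
  have t1 : |6 * d * (2 * Q)| ≤ e * (6 * Q ^ 2) + D ^ 2 / (6 * e) := by
    have : |6 * d * (2 * Q)| ≤ D * (2 * |Q|) := by
      rw [abs_mul, abs_mul 2 Q, abs_two]
      exact mul_le_mul_of_nonneg_right k2.1 (by positivity)
    refine this.trans ?_
    have q : e * (6 * Q ^ 2) + D ^ 2 / (6 * e) - D * (2 * |Q|) = (6 * e * |Q| - D) ^ 2 / (6 * e) := by
      rw [← sq_abs Q]; field_simp; ring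
    have : 0 ≤ (6 * e * |Q| - D) ^ 2 / (6 * e) := by positivity
    linarith
  have t2 : |6 * d * d| ≤ D ^ 2 / 6 := by
    have : |6 * d * d| = |6 * d| ^ 2 / 6 := by rw [sq_abs, abs_of_nonneg (by have := mul_self_nonneg d; linarith)]; ring
    rw [this]
    have := pow_le_pow_left₀ (abs_nonneg _) k2.1 2
    linarith
  have t3 : |6 * s| ≤ D := by
    have := k2.1; rw [abs_mul, abs_of_pos (show (0:ℝ) < 6 by norm_num)] at this ⊢
    linarith [k2.2]
  have t4 : |(n:ℝ) - m| ≤ D := by linarith [abs_nonneg c]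
  have t5 : 0 ≤ e * (6 * (A + B) + (n + 3 / 2)) := by positivity
  obtain ⟨u1, u2⟩ := abs_le.1 t1
  obtain ⟨u3, u4⟩ := abs_le.1 t2
  obtain ⟨u5, u6⟩ := abs_le.1 t3
  obtain ⟨u7, u8⟩ := abs_le.1 t4
  rw [abs_le]
  constructor <;> linarith

noncomputable def wd (n m : ℕ) (c x : ℝ) : ℝ :=
  if |x| < 1 then pd n x / pd m (wf n m c x) else 1

lemma wd_pos (n m : ℕ) (c x : ℝ) : 0 < wd n m c x := by
  unfold wd
  split_ifs with h
  · have := (pd_ge n h).1
    have := (pd_ge m (ps_abs m (ph n x + c))).1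
    rw [wf_in _ _ _ h]
    have : (0:ℝ) ≤ n := n.cast_nonneg
    have : (0:ℝ) ≤ m := m.cast_nonneg
    exact div_pos (by linarith) (by linarith)
  · exact one_pos

lemma wd_close (n m : ℕ) {c x D e : ℝ} (hD : |c| + |(n:ℝ) - m| ≤ D) (he : 0 < e) (he' : e ≤ 1 / 4)
    (h : |x| < 1 → D ^ 2 / (6 * e) + D ^ 2 / 6 + 2 * D ≤ e * pd n x) : |wd n m c x - 1| ≤ 4 * e := by
  unfold wd
  split_ifs with hx
  · rw [wf_in _ _ _ hx]
    have a := est n m hx (ps_abs m (ph n x + c)) (ph_ps _ _) hD he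
    have b := h hx
    have p := (pd_ge n hx).1
    have : (0:ℝ) ≤ n := n.cast_nonneg
    obtain ⟨a1, a2⟩ := abs_le.1 a
    generalize pd m (ps m (ph n x + c)) = Y at *
    generalize pd n x = X at *
    have y0 : X / 2 ≤ Y := by nlinarith
    have : X / Y - 1 = (X - Y) / Y := by field_simp [show Y ≠ 0 by linarith]
    rw [this, abs_div, abs_of_pos (show 0 < Y by linarith), div_le_iff₀ (by linarith), abs_le]
    constructor <;> nlinarith
  · simp; positivity

lemma wd_le (n : ℕ) (x : ℝ) : wd n (n + 1) 0 x ≤ 2 := by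
  unfold wd
  split_ifs with hx
  · rw [wf_in _ _ _ hx]
    have a := est (n + 1) n (c := 0) (D := 1) (e := 1 / 2) (ps_abs (n + 1) (ph n x + 0)) hx
      (by rw [ph_ps]; ring) (by simp) (by norm_num)
    have p := (pd_ge (n + 1) (ps_abs (n + 1) (ph n x + 0))).1
    have : (0:ℝ) ≤ (n + 1 : ℕ) := Nat.cast_nonneg _
    rw [div_le_iff₀ (by linarith)]
    linarith [(abs_le.1 a).2]
  · norm_num

lemma wd_cont (n m : ℕ) (c : ℝ) : Continuous (wd n m c) := by
  refine continuous_iff_continuousAt.2 fun x => ?_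
  have hpd : ∀ (k : ℕ) (y : ℝ), |y| < 1 → ContinuousAt (pd k) y := by
    intro k y hy
    obtain ⟨h1, h2⟩ := abs_lt.1 hy
    have e1 : 1 - y ≠ 0 := by linarith
    have e2 : 1 + y ≠ 0 := by linarith
    unfold pd
    fun_prop (disch := assumption)
  rcases lt_trichotomy |x| 1 with h | h | h
  · have ev : ∀ᶠ y in 𝓝 x, |y| < 1 := continuous_abs.continuousAt.eventually_lt continuousAt_const h
    have a : |wf n m c x| < 1 := by rw [wf_in _ _ _ h]; exact ps_abs _ _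
    have p := (pd_ge m a).1
    have : (0:ℝ) ≤ m := m.cast_nonneg
    refine ((hpd n x h).div ((hpd m _ a).comp (wf_cont n m c).continuousAt)
      (by simp only [Function.comp]; linarith)).congr (ev.mono fun y hy => ?_)
    simp [wd, hy]
  · rw [Metric.continuousAt_iff]
    intro e he
    obtain ⟨f, f0, f1, f2⟩ : ∃ f : ℝ, 0 < f ∧ f ≤ 1 / 4 ∧ 4 * f < e :=
      ⟨min (1 / 4) (e / 5), by positivity, min_le_left _ _, by linarith [min_le_right (1 / 4) (e / 5)]⟩
    obtain ⟨D, hD⟩ : ∃ D, D = |c| + |(n:ℝ) - m| := ⟨_, rfl⟩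
    obtain ⟨K, hK⟩ : ∃ K, K = D ^ 2 / (6 * f) + D ^ 2 / 6 + 2 * D := ⟨_, rfl⟩
    have K0 : 0 ≤ K := by rw [hK, hD]; positivity
    refine ⟨f / (K + 1), by positivity, fun y hy => ?_⟩
    have : wd n m c x = 1 := if_neg (by rw [h]; exact lt_irrefl _)
    rw [this, Real.dist_eq]
    refine (wd_close n m hD.ge f0 f1 fun hy1 => ?_).trans_lt f2
    rw [← hK]
    rw [Real.dist_eq, abs_lt] at hy
    obtain ⟨y1, y2⟩ := abs_lt.1 hy1
    obtain ⟨-, p1, p2⟩ := pd_ge n hy1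
    have key : ∀ z : ℝ, 0 < z → z < f / (K + 1) → 1 / z ≤ pd n y → K ≤ f * pd n y := by
      intro z z0 z1 z2
      rw [lt_div_iff₀ (by linarith)] at z1
      rw [div_le_iff₀ z0] at z2
      nlinarith
    rcases (abs_eq (zero_le_one' ℝ)).1 h with h | h
    · exact key _ (by linarith) (by linarith) p1
    · exact key _ (by linarith) (by linarith) p2
  · have ev : ∀ᶠ y in 𝓝 x, 1 < |y| := continuousAt_const.eventually_lt continuous_abs.continuousAt h
    refine (continuousAt_const (y := (1:ℝ))).congr (ev.mono fun y hy => ?_)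
    simp [wd, not_lt.2 hy.le]

lemma wf_der (n m : ℕ) (c x : ℝ) : HasDerivAt (wf n m c) (wd n m c x) x := by
  refine der_of (wf_cont n m c) (wd_cont n m c) (s := {1, -1}) (Set.toFinite _).countable ?_ x
  intro x hx
  rcases lt_trichotomy |x| 1 with h | h | h
  · have ev : ∀ᶠ y in 𝓝 x, |y| < 1 := continuous_abs.continuousAt.eventually_lt continuousAt_const h
    have a := (ps_der m (ph n x + c)).comp x ((ph_der n h).add_const c)
    have : wd n m c x = (pd m (ps m (ph n x + c)))⁻¹ * pd n x := by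
      rw [wd, if_pos h, wf_in _ _ _ h]; ring
    rw [this]
    exact a.congr_of_eventuallyEq (ev.mono fun y hy => wf_in _ _ _ hy)
  · exact absurd ((abs_eq (zero_le_one' ℝ)).1 h) hx
  · have ev : ∀ᶠ y in 𝓝 x, 1 < |y| := continuousAt_const.eventually_lt continuous_abs.continuousAt h
    rw [show wd n m c x = 1 from if_neg (not_lt.2 h.le)]
    exact (hasDerivAt_id x).congr_of_eventuallyEq (ev.mono fun y hy => wf_out _ _ _ hy.le)

lemma wd_small (c : ℝ) (j : ℕ) {e : ℝ} (he : 0 < e) :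
    ∀ᶠ n : ℕ in atTop, ∀ x, |wd n (n + j) c x - 1| ≤ e := by
  obtain ⟨f, f0, f1, f2⟩ : ∃ f : ℝ, 0 < f ∧ f ≤ 1 / 4 ∧ 4 * f ≤ e :=
    ⟨min (1 / 4) (e / 4), by positivity, min_le_left _ _, by linarith [min_le_right (1 / 4) (e / 4)]⟩
  obtain ⟨D, hD⟩ : ∃ D, D = |c| + j := ⟨_, rfl⟩
  filter_upwards [tendsto_natCast_atTop_atTop.eventually_ge_atTop
    ((D ^ 2 / (6 * f) + D ^ 2 / 6 + 2 * D) / f)] with n hn x
  refine (wd_close n (n + j) (D := D) (by rw [hD]; simp) f0 f1 fun hx => ?_).trans f2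
  rw [div_le_iff₀ f0] at hn
  nlinarith [(pd_ge n hx).1]

def CE (f : ℝ → ℝ) (s : Set ℝ) : Prop :=
  ∀ a ∈ s, ∀ b ∈ s, ∀ c ∈ s, ∀ d ∈ s, a < b → b < c → c < d →
    (c - b) * (d - a) * ((f b - f a) * (f d - f c)) ≤ (f c - f b) * (f d - f a) * ((b - a) * (d - c))

lemma CE.comp {f g : ℝ → ℝ} {s t : Set ℝ} (hf : CE f t) (hm : StrictMono f) (hg : CE g s)
    (hgm : StrictMonoOn g s) (hst : MapsTo g s t) : CE (fun x => f (g x)) s := by
  intro a ha b hb c hc d hd ab bc cd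
  have m1 := hgm ha hb ab
  have m2 := hgm hb hc bc
  have m3 := hgm hc hd cd
  have h1 := hg a ha b hb c hc d hd ab bc cd
  have h2 := hf _ (hst ha) _ (hst hb) _ (hst hc) _ (hst hd) m1 m2 m3
  have p1 : 0 < (g b - g a) * (g d - g c) := mul_pos (by linarith) (by linarith)
  have p2 : 0 < (f (g b) - f (g a)) * (f (g d) - f (g c)) :=
    mul_pos (by linarith [hm m1]) (by linarith [hm m3])
  have p3 : 0 < (b - a) * (d - c) := mul_pos (by linarith) (by linarith)
  refine le_of_mul_le_mul_right ?_ p1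
  have k1 := mul_le_mul_of_nonneg_right h1 p2.le
  have k2 := mul_le_mul_of_nonneg_right h2 p3.le
  beta_reduce
  nlinarith

lemma CE.mono {f : ℝ → ℝ} {s t : Set ℝ} (hf : CE f t) (h : s ⊆ t) : CE f s :=
  fun a ha b hb c hc d hd => hf a (h ha) b (h hb) c (h hc) d (h hd)

lemma CE.congr {f g : ℝ → ℝ} {s : Set ℝ} (hf : CE f s) (h : ∀ x ∈ s, g x = f x) : CE g s := by
  intro a ha b hb c hc d hd ab bc cd
  rw [h a ha, h b hb, h c hc, h d hd]
  exact hf a ha b hb c hc d hd ab bc cd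

lemma CE_aff (k l : ℝ) (s : Set ℝ) : CE (fun x => k * x + l) s := by
  intro a _ b _ c _ d _ _ _ _
  apply le_of_eq; ring

lemma CE.post {f : ℝ → ℝ} {s : Set ℝ} (hf : CE f s) (k l : ℝ) : CE (fun x => k * f x + l) s := by
  intro a ha b hb c hc d hd ab bc cd
  have := mul_le_mul_of_nonneg_left (hf a ha b hb c hc d hd ab bc cd) (sq_nonneg k)
  beta_reduce
  nlinarith

lemma CE_ps (n : ℕ) : CE (ps n) univ := by
  intro a _ b _ c _ d _ ab bc cd
  have m1 := ps_mono n ab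
  have m2 := ps_mono n bc
  have m3 := ps_mono n cd
  have e : ∀ s t, t - s = (ps n t - ps n s) * dd n (ps n s) (ps n t) := fun s t => by
    rw [← ph_sub n (ps_abs _ _) (ps_abs _ _), ph_ps, ph_ps]
  rw [e b c, e a d, e a b, e c d]
  obtain ⟨a1, a2⟩ := abs_lt.1 (ps_abs n a)
  obtain ⟨d1, d2⟩ := abs_lt.1 (ps_abs n d)
  generalize ps n a = x1 at *
  generalize ps n b = x2 at *
  generalize ps n c = x3 at *
  generalize ps n d = x4 at *
  have key : dd n x2 x3 * dd n x1 x4 ≤ dd n x1 x2 * dd n x3 x4 := by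
    have hn : (0:ℝ) ≤ n := n.cast_nonneg
    have A13 : 1 / (1 - x1) ≤ 1 / (1 - x3) := one_div_le_one_div_of_le (by linarith) (by linarith)
    have A24 : 1 / (1 - x2) ≤ 1 / (1 - x4) := one_div_le_one_div_of_le (by linarith) (by linarith)
    have B13 : 1 / (1 + x3) ≤ 1 / (1 + x1) := one_div_le_one_div_of_le (by linarith) (by linarith)
    have B24 : 1 / (1 + x4) ≤ 1 / (1 + x2) := one_div_le_one_div_of_le (by linarith) (by linarith)
    have pA1 : 0 < 1 / (1 - x1) := one_div_pos.2 (by linarith)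
    have pA2 : 0 < 1 / (1 - x2) := one_div_pos.2 (by linarith)
    have pB3 : 0 < 1 / (1 + x3) := one_div_pos.2 (by linarith)
    have pB4 : 0 < 1 / (1 + x4) := one_div_pos.2 (by linarith)
    unfold dd
    generalize 1 / (1 - x1) = A1 at *
    generalize 1 / (1 - x2) = A2 at *
    generalize 1 / (1 - x3) = A3 at *
    generalize 1 / (1 - x4) = A4 at *
    generalize 1 / (1 + x1) = B1 at *
    generalize 1 / (1 + x2) = B2 at *
    generalize 1 / (1 + x3) = B3 at *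
    generalize 1 / (1 + x4) = B4 at *
    have q1 : 0 ≤ (B1 * A3 - A1 * B3) * (B2 * A4 - A2 * B4) :=
      mul_nonneg (by nlinarith) (by nlinarith)
    have q2 : 0 ≤ (n + 3 / 2) * ((A3 - A1) * (A4 - A2)) :=
      mul_nonneg (by linarith) (mul_nonneg (by linarith) (by linarith))
    have q3 : 0 ≤ (n + 3 / 2) * ((B1 - B3) * (B2 - B4)) :=
      mul_nonneg (by linarith) (mul_nonneg (by linarith) (by linarith))
    nlinarith
  have p : 0 ≤ (x3 - x2) * (x4 - x1) * ((x2 - x1) * (x4 - x3)) :=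
    mul_nonneg (mul_nonneg (by linarith) (by linarith)) (mul_nonneg (by linarith) (by linarith))
  nlinarith [mul_le_mul_of_nonneg_left key p]

end Pool.Agent.H.MP_5a4e9f_an
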