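import Pool.Agent.H.MP_5a4e9f_an.A

namespace Pool.Agent.H.MP_5a4e9f_an
open Set Filter Topology

def C1 (f : ℝ → ℝ) : Prop := ContDiff ℝ 1 f ∧ ∀ x, 0 < deriv f x

lemma C1.of {f f' : ℝ → ℝ} (hc : Continuous f') (hp : ∀ x, 0 < f' x)
    (hd : ∀ x, HasDerivAt f (f' x) x) : C1 f := by
  have e : deriv f = f' := funext fun x => (hd x).deriv
  exact ⟨contDiff_one_iff_deriv.2 ⟨fun x => (hd x).differentiableAt, e ▸ hc⟩, e ▸ hp⟩

lemma C1.der {f : ℝ → ℝ} (h : C1 f) (x : ℝ) : HasDerivAt f (deriv f x) x :=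
  (h.1.differentiable one_ne_zero x).hasDerivAt

lemma C1.dc {f : ℝ → ℝ} (h : C1 f) : Continuous (deriv f) := (contDiff_one_iff_deriv.1 h.1).2

lemma C1.loc {f : ℝ → ℝ} (h : ∀ x, ∃ g, C1 g ∧ f =ᶠ[𝓝 x] g) : C1 f := by
  refine ⟨contDiff_iff_contDiffAt.2 fun x => ?_, fun x => ?_⟩
  · obtain ⟨g, hg, e⟩ := h x
    exact hg.1.contDiffAt.congr_of_eventuallyEq e
  · obtain ⟨g, hg, e⟩ := h x
    rw [e.deriv_eq]; exact hg.2 x

lemma C1.comp {f g : ℝ → ℝ} (hf : C1 f) (hg : C1 g) : C1 (fun x => f (g x)) := by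
  refine ⟨hf.1.comp hg.1, fun x => ?_⟩
  rw [(hd_eq (g := fun x => f (g x)) ((hf.der (g x)).comp x (hg.der x)) rfl rfl).deriv]
  exact mul_pos (hf.2 _) (hg.2 _)

lemma C1.add (c : ℝ) : C1 (fun x => x + c) :=
  C1.of continuous_const (fun _ => one_pos) fun x => (hasDerivAt_id x).add_const c

lemma C1.mono {f : ℝ → ℝ} (h : C1 f) : StrictMono f := strictMono_of_deriv_pos h.2

lemma C1_wf (n m : ℕ) (c : ℝ) : C1 (wf n m c) :=
  C1.of (wd_cont n m c) (wd_pos n m c) (wf_der n m c)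

lemma per_int {f : ℝ → ℝ} {L : ℝ} (h : ∀ x, f (x + L) = f x + L) (k : ℤ) (x : ℝ) :
    f (x + L * k) = f x + L * k := by
  induction k using Int.induction_on with
  | zero => simp
  | succ k ih =>
    push_cast at ih ⊢
    rw [mul_add, mul_one, ← add_assoc, h, ih]; ring
  | pred k ih =>
    push_cast at ih ⊢
    have := h (x + L * (-(k:ℝ) - 1))
    rw [show x + L * (-(k:ℝ) - 1) + L = x + L * -(k:ℝ) by ring, ih] at this
    linarith

noncomputable def mkI (f : ℝ → ℝ) (h : C1 f) (hp : ∀ x, f (x + 24) = f x + 24) : ℝ ≃o ℝ :=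
  h.mono.orderIsoOfSurjective f fun y => by
    obtain ⟨n, hn⟩ := exists_nat_ge |y - f 0|
    have a := per_int hp n 0
    have b := per_int hp (-n) 0
    push_cast at a b
    obtain ⟨c, d⟩ := abs_le.1 hn
    have : (0:ℝ) ≤ n := n.cast_nonneg
    exact mem_range_of_exists_le_of_exists_ge h.1.continuous ⟨_, by rw [b]; linarith⟩
      ⟨_, by rw [a]; linarith⟩

lemma mkI_apply (f : ℝ → ℝ) (h : C1 f) (hp : ∀ x, f (x + 24) = f x + 24) (x : ℝ) :
    mkI f h hp x = f x := rfl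

lemma iv (f : ℝ ≃o ℝ) (x : ℝ) : f⁻¹ (f x) = x := f.symm_apply_apply x
lemma vi (f : ℝ ≃o ℝ) (x : ℝ) : f (f⁻¹ x) = x := f.apply_symm_apply x
lemma ma (f g : ℝ ≃o ℝ) (x : ℝ) : (f * g) x = f (g x) := rfl
lemma inv_eq {f : ℝ ≃o ℝ} {x y : ℝ} (h : f x = y) : f⁻¹ y = x := by rw [← h, iv]

def Gc : Subgroup (ℝ ≃o ℝ) where
  carrier := {f | C1 f ∧ ∀ x, f (x + 24) = f x + 24}
  one_mem' := ⟨C1.of continuous_const (fun _ => one_pos) hasDerivAt_id, fun _ => rfl⟩
  mul_mem' := fun {f g} hf hg => ⟨hf.1.comp hg.1, fun x => by rw [ma, ma, hg.2, hf.2]⟩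
  inv_mem' := fun {f} hf => by
    refine ⟨?_, fun x => inv_eq (by rw [hf.2, vi])⟩
    have hc : Continuous (f⁻¹ : ℝ ≃o ℝ) := OrderIso.continuous _
    refine C1.of (f' := fun x => (deriv f (f⁻¹ x))⁻¹)
      ((hf.1.dc.comp hc).inv₀ fun x => (hf.1.2 _).ne') (fun x => inv_pos.2 (hf.1.2 _)) fun x => ?_
    exact HasDerivAt.of_local_left_inverse hc.continuousAt (hf.1.der _) (hf.1.2 _).ne'
      (Eventually.of_forall (vi f))

noncomputable def per (L a : ℝ) (f : ℝ → ℝ) (x : ℝ) : ℝ :=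
  f (x - L * ⌊(x - a) / L⌋) + L * ⌊(x - a) / L⌋

lemma per_add {L : ℝ} (hL : 1 ≤ L) (a : ℝ) (f : ℝ → ℝ) (k : ℤ) (x : ℝ) :
    per L a f (x + L * k) = per L a f x + L * k := by
  have : (x + L * k - a) / L = (x - a) / L + k := by field_simp; ring
  unfold per
  rw [this, Int.floor_add_intCast]; push_cast
  rw [show x + L * k - L * (⌊(x - a) / L⌋ + k) = x - L * ⌊(x - a) / L⌋ by ring]; ring

lemma per_eq {L a : ℝ} (hL : 1 ≤ L) {f : ℝ → ℝ}
    (H : ∀ x, a - 1 < x → x < a + 1 → f (x + L) = f x + L) {x : ℝ} (h1 : a - 1 < x)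
    (h2 : x < a + L + 1) : per L a f x = f x := by
  have base : ∀ y, a ≤ y → y < a + L → per L a f y = f y := by
    intro y y1 y2
    have : ⌊(y - a) / L⌋ = 0 := by
      rw [Int.floor_eq_zero_iff]
      exact ⟨div_nonneg (by linarith) (by linarith), by rw [div_lt_one (by linarith)]; linarith⟩
    simp [per, this]
  rcases lt_or_ge x a with h | h
  · have := per_add hL a f 1 x
    rw [Int.cast_one, mul_one, base _ (by linarith) (by linarith), H x h1 (by linarith)] at this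
    linarith
  · rcases lt_or_ge x (a + L) with g | g
    · exact base x h g
    · have := per_add hL a f 1 (x - L)
      have e := H (x - L) (by linarith) (by linarith)
      rw [Int.cast_one, mul_one, base (x - L) (by linarith) (by linarith), sub_add_cancel] at this
      rw [sub_add_cancel] at e
      linarith

lemma per_C1 {L a : ℝ} (hL : 1 ≤ L) {f : ℝ → ℝ} (hf : C1 f)
    (H : ∀ x, a - 1 < x → x < a + 1 → f (x + L) = f x + L) : C1 (per L a f) := by
  refine C1.loc fun x => ?_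
  obtain ⟨k, hk⟩ : ∃ k, k = ⌊(x - a) / L⌋ := ⟨_, rfl⟩
  have a1 := Int.floor_le ((x - a) / L)
  have a2 := Int.lt_floor_add_one ((x - a) / L)
  rw [← hk] at a1 a2
  rw [le_div_iff₀ (by linarith)] at a1
  rw [div_lt_iff₀ (by linarith)] at a2
  refine ⟨fun y => f (y + -(L * k)) + L * k, (C1.add _).comp (hf.comp (C1.add _)), ?_⟩
  filter_upwards [Ioo_mem_nhds (show a - 1 + L * k < x by linarith)
    (show x < a + L + 1 + L * k by linarith)] with y hy
  rw [← per_eq hL H (x := y + -(L * k)) (by linarith [hy.1]) (by linarith [hy.2]), ← per_add hL]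
  congr 1; ring

noncomputable def mb (w : ℝ) : ℝ := 5 + 49 * (3 * w - 1) / (2 * (99 * w - 29))
noncomputable def c1 (x : ℝ) : ℝ := max (-(1 / 3)) (min x (1 / 3))
noncomputable def c2 (x : ℝ) : ℝ := max (1 / 3) (min x 1)
noncomputable def f0 (x : ℝ) : ℝ :=
  ph 0 (c1 x) + (mb (c2 x) - mb (c2 (-x))) + 3 / 50 * (max x 1 - max (-x) 1)
noncomputable def d0 (x : ℝ) : ℝ := pd 0 (c1 x) + (294 / (99 * c2 |x| - 29) ^ 2 - 147 / 8)

lemma c1_abs (x : ℝ) : |c1 x| < 1 := by
  unfold c1; rw [abs_lt]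
  exact ⟨by linarith [le_max_left (-(1 / 3) : ℝ) (min x (1 / 3))],
    max_lt (by norm_num) (by linarith [min_le_right x (1 / 3)])⟩
lemma c2_ge (x : ℝ) : 1 / 3 ≤ c2 x := le_max_left _ _
lemma c1_neg (x : ℝ) : c1 (-x) = -c1 x := by
  unfold c1; simp only [max_def, min_def]; split_ifs <;> linarith
lemma f0_neg (x : ℝ) : f0 (-x) = -f0 x := by
  unfold f0; rw [c1_neg, ph_neg, neg_neg]; ring
lemma d0_neg (x : ℝ) : d0 (-x) = d0 x := by
  unfold d0; rw [c1_neg, abs_neg]; unfold pd; simp only [sub_neg_eq_add, ← sub_eq_add_neg]; ring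
lemma f0_a {x : ℝ} (h : |x| ≤ 1 / 3) : f0 x = ph 0 x ∧ d0 x = pd 0 x := by
  obtain ⟨h1, h2⟩ := abs_le.1 h
  have e1 : c1 x = x := by unfold c1; rw [min_eq_left h2, max_eq_right h1]
  have e2 : ∀ y, y ≤ 1 / 3 → c2 y = 1 / 3 := fun y hy =>
    max_eq_left ((min_le_left _ _).trans hy)
  unfold f0 d0
  rw [e1, e2 x h2, e2 (-x) (by linarith), e2 _ h, max_eq_right (by linarith : x ≤ 1),
    max_eq_right (by linarith : -x ≤ 1)]
  norm_num
lemma f0_b {x : ℝ} (h1 : 1 / 3 ≤ x) (h2 : x ≤ 1) :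
    f0 x = mb x ∧ d0 x = 294 / (99 * x - 29) ^ 2 := by
  have e1 : c1 x = 1 / 3 := by unfold c1; rw [min_eq_right h1]; norm_num
  have e2 : c2 x = x := by unfold c2; rw [min_eq_left h2, max_eq_right h1]
  have e3 : c2 (-x) = 1 / 3 := max_eq_left ((min_le_left _ _).trans (by linarith))
  unfold f0 d0
  rw [e1, abs_of_nonneg (by linarith : 0 ≤ x), e2, e3, max_eq_right h2,
    max_eq_right (by linarith : -x ≤ 1)]
  norm_num [ph, pd, mb]
lemma f0_c {x : ℝ} (h : 1 ≤ x) : f0 x = 6 + 3 / 50 * (x - 6) ∧ d0 x = 3 / 50 := by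
  have e1 : c1 x = 1 / 3 := by unfold c1; rw [min_eq_right (by linarith)]; norm_num
  have e2 : c2 x = 1 := by unfold c2; rw [min_eq_right h]; norm_num
  have e3 : c2 (-x) = 1 / 3 := max_eq_left ((min_le_left _ _).trans (by linarith))
  unfold f0 d0
  rw [e1, abs_of_nonneg (by linarith : 0 ≤ x), e2, e3, max_eq_left h,
    max_eq_right (by linarith : -x ≤ 1)]
  norm_num [ph, pd, mb]
  ring

lemma C1_f0 : C1 f0 := by
  have k1 : Continuous c1 := by unfold c1; fun_prop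
  have k2 : Continuous c2 := by unfold c2; fun_prop
  have n1 : ∀ x, 1 - c1 x ≠ 0 := fun x => by linarith [(abs_lt.1 (c1_abs x)).2]
  have n2 : ∀ x, 1 + c1 x ≠ 0 := fun x => by linarith [(abs_lt.1 (c1_abs x)).1]
  have n3 : ∀ x, 2 * (99 * c2 x - 29) ≠ 0 := fun x => by linarith [c2_ge x]
  have n4 : ∀ x, (99 * c2 x - 29) ^ 2 ≠ 0 := fun x => pow_ne_zero _ (by linarith [c2_ge x])
  have hc : Continuous f0 := by
    unfold f0 ph mb
    fun_prop (disch := intros; first | apply n1 | apply n2 | apply n3)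
  have hd : Continuous d0 := by
    unfold d0 pd
    fun_prop (disch := intros; first | apply n1 | apply n2 | apply n4)
  have pos : ∀ x, 0 ≤ x → 0 < d0 x := by
    intro x hx
    rcases le_total x (1 / 3) with h | h
    · rw [(f0_a (abs_le.2 ⟨by linarith, h⟩)).2]
      linarith [(pd_ge 0 (abs_lt.2 ⟨by linarith, by linarith⟩ : |x| < 1)).1, Nat.cast_zero (R := ℝ)]
    · rcases le_total x 1 with g | g
      · rw [(f0_b h g).2]
        exact div_pos (by norm_num) (pow_pos (by linarith) _)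
      · rw [(f0_c g).2]; norm_num
  have der : ∀ x, 0 ≤ x → x ≠ 1 / 3 → x ≠ 1 → HasDerivAt f0 (d0 x) x := by
    intro x hx x1 x2
    rcases lt_or_gt_of_ne x1 with h | h
    · rw [(f0_a (abs_le.2 ⟨by linarith, h.le⟩)).2]
      refine (ph_der 0 (abs_lt.2 ⟨by linarith, by linarith⟩)).congr_of_eventuallyEq ?_
      filter_upwards [Ioo_mem_nhds (show -(1 / 3) < x by linarith) h] with y hy
      exact (f0_a (abs_le.2 ⟨hy.1.le, hy.2.le⟩)).1
    · rcases lt_or_gt_of_ne x2 with g | g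
      · rw [(f0_b h.le g.le).2]
        have e : 2 * (99 * x - 29) ≠ 0 := by linarith
        have e' : 99 * x - 29 ≠ 0 := by linarith
        have a := ((((((hasDerivAt_id x).const_mul 3).sub_const 1).const_mul 49).div
          ((((hasDerivAt_id x).const_mul 99).sub_const 29).const_mul 2) e)).const_add 5
        refine (hd_eq (g := mb) a (by funext y; simp [mb]) ?_).congr_of_eventuallyEq ?_
        · simp only [id]; field_simp; ring
        · filter_upwards [Ioo_mem_nhds h g] with y hy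
          exact (f0_b hy.1.le hy.2.le).1
      · rw [(f0_c g.le).2]
        have a := (((hasDerivAt_id x).sub_const 6).const_mul (3 / 50)).const_add 6
        refine (hd_eq a rfl (by ring)).congr_of_eventuallyEq ?_
        filter_upwards [Ioi_mem_nhds g] with y hy
        exact (f0_c hy.le).1
  refine C1.of hd (fun x => ?_) (der_of hc hd (s := {1 / 3, 1, -(1 / 3), -1})
    (Set.toFinite _).countable fun x hx => ?_)
  · rcases le_total 0 x with h | h
    · exact pos x h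
    · rw [← d0_neg]; exact pos _ (by linarith)
  · simp only [mem_insert_iff, mem_singleton_iff, not_or] at hx
    obtain ⟨x1, x2, x3, x4⟩ := hx
    rcases le_total 0 x with h | h
    · exact der x h x1 x2
    · have := ((der (-x) (by linarith) (fun e => x3 (by linarith)) (fun e => x4 (by linarith))).comp x
        (hasDerivAt_neg x)).neg
      refine hd_eq this ?_ (by rw [d0_neg]; ring)
      funext y; simp [f0_neg]

noncomputable def ka : ℝ := 3 / 50
lemma ka_pos : 0 < ka := by norm_num [ka]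
lemma kp (n : ℕ) : 0 < ka ^ n := pow_pos ka_pos n
lemma kanti {n m : ℕ} (h : n ≤ m) : ka ^ m ≤ ka ^ n :=
  pow_le_pow_of_le_one ka_pos.le (by norm_num [ka]) h
lemma k1 (n : ℕ) : ka ^ n ≤ 1 := by simpa using kanti (Nat.zero_le n)
lemma ksucc (n : ℕ) : ka ^ (n + 1) = 3 / 50 * ka ^ n := by rw [pow_succ, ka]; ring

noncomputable def pl (n m : ℕ) (c x : ℝ) : ℝ := 6 + ka ^ n * (2 + wf n m c ((x - 6) / ka ^ n - 2))
lemma pl_der (n m : ℕ) (c x : ℝ) :
    HasDerivAt (pl n m c) (wd n m c ((x - 6) / ka ^ n - 2)) x := by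
  have a := (((wf_der n m c ((x - 6) / ka ^ n - 2)).comp x
    ((((hasDerivAt_id x).sub_const 6).div_const (ka ^ n)).sub_const 2)).const_add 2).const_mul
    (ka ^ n) |>.const_add 6
  refine hd_eq a rfl ?_
  have := kp n
  field_simp
lemma pl_arg {n : ℕ} {x : ℝ} (h : ¬(ka ^ n < x - 6 ∧ x - 6 < 3 * ka ^ n)) :
    1 ≤ |(x - 6) / ka ^ n - 2| := by
  have := kp n
  by_contra hc
  obtain ⟨a, b⟩ := abs_lt.1 (not_le.1 hc)
  refine h ⟨?_, ?_⟩
  · have : 1 < (x - 6) / ka ^ n := by linarith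
    rwa [one_lt_div (kp n)] at this
  · have : (x - 6) / ka ^ n < 3 := by linarith
    rwa [div_lt_iff₀ (kp n)] at this
lemma pl_out {n : ℕ} (m : ℕ) (c : ℝ) {x : ℝ} (h : ¬(ka ^ n < x - 6 ∧ x - 6 < 3 * ka ^ n)) :
    pl n m c x = x := by
  have := kp n
  rw [pl, wf_out _ _ _ (pl_arg h)]; field_simp; ring
lemma pl_in {n : ℕ} (m : ℕ) (c : ℝ) {x : ℝ} (h : ka ^ n < x - 6 ∧ x - 6 < 3 * ka ^ n) :
    ka ^ n ≤ pl n m c x - 6 ∧ pl n m c x - 6 ≤ 3 * ka ^ n := by
  have := kp n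
  have a : |(x - 6) / ka ^ n - 2| ≤ 1 := by
    have a1 : 1 < (x - 6) / ka ^ n := by rw [one_lt_div (kp n)]; exact h.1
    have a2 : (x - 6) / ka ^ n < 3 := by rw [div_lt_iff₀ (kp n)]; exact h.2
    exact abs_le.2 ⟨by linarith, by linarith⟩
  obtain ⟨b1, b2⟩ := abs_le.1 (wf_abs n m c a)
  unfold pl
  constructor <;> nlinarith

open Classical in
noncomputable def ix (x : ℝ) : ℕ :=
  if h : ∃ n, ka ^ n < x - 6 ∧ x - 6 < 3 * ka ^ n then h.choose else 0
noncomputable def t0 (x : ℝ) : ℝ := pl (ix x) (ix x + 1) 0 x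
noncomputable def td (x : ℝ) : ℝ := wd (ix x) (ix x + 1) 0 ((x - 6) / ka ^ ix x - 2)

lemma ix_or (x : ℝ) : (ka ^ ix x < x - 6 ∧ x - 6 < 3 * ka ^ ix x) ∨
    ((∀ n, ¬(ka ^ n < x - 6 ∧ x - 6 < 3 * ka ^ n)) ∧ t0 x = x ∧ td x = 1) := by
  by_cases h : ∃ n, ka ^ n < x - 6 ∧ x - 6 < 3 * ka ^ n
  · left; rw [ix, dif_pos h]; exact h.choose_spec
  · push Not at h
    have h' : ∀ n, ¬(ka ^ n < x - 6 ∧ x - 6 < 3 * ka ^ n) := fun n a => absurd a.2 (not_lt.2 (h n a.1))
    exact Or.inr ⟨h', pl_out _ _ (h' _), if_neg (not_lt.2 (pl_arg (h' _)))⟩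

lemma t0_eq (n : ℕ) {x : ℝ} (h1 : 3 * ka ^ (n + 1) ≤ x - 6) (h2 : 3 / 50 * (x - 6) ≤ ka ^ n) :
    t0 x = pl n (n + 1) 0 x ∧ td x = wd n (n + 1) 0 ((x - 6) / ka ^ n - 2) := by
  rcases ix_or x with h | h
  · have : ix x = n := by
      rcases lt_trichotomy (ix x) n with g | g | g
      · have := kanti (show ix x + 1 ≤ n from g); rw [ksucc] at this; linarith [h.1]
      · exact g
      · have := kanti (show n + 1 ≤ ix x from g); linarith [h.2]
    rw [t0, td, this]; exact ⟨rfl, rfl⟩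
  · rw [h.2.1, h.2.2, pl_out _ _ (h.1 n), wd, if_neg (not_lt.2 (pl_arg (h.1 n)))]
    exact ⟨rfl, rfl⟩

lemma t0_id {x : ℝ} (h : x ≤ 6 ∨ 9 ≤ x) : t0 x = x ∧ td x = 1 := by
  rcases ix_or x with g | g
  · have := kp (ix x); have := k1 (ix x)
    rcases h with h | h <;> linarith [g.1, g.2]
  · exact g.2

lemma t0_all : C1 t0 ∧ ∀ x, deriv t0 x ≤ 2 := by
  have loc : ∀ x, x ≠ 6 → ∃ n, ∀ᶠ y in 𝓝 x,
      t0 y = pl n (n + 1) 0 y ∧ td y = wd n (n + 1) 0 ((y - 6) / ka ^ n - 2) := by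
    intro x hx
    have out : ∀ y, y ≤ 6 ∨ 9 ≤ y →
        t0 y = pl 0 (0 + 1) 0 y ∧ td y = wd 0 (0 + 1) 0 ((y - 6) / ka ^ 0 - 2) := by
      intro y hy
      have : ¬(ka ^ 0 < y - 6 ∧ y - 6 < 3 * ka ^ 0) := by
        rw [pow_zero]; rintro ⟨a, b⟩; rcases hy with h | h <;> linarith
      rw [(t0_id hy).1, (t0_id hy).2, pl_out _ _ this, wd, if_neg (not_lt.2 (pl_arg this))]
      exact ⟨rfl, rfl⟩
    rcases lt_or_gt_of_ne hx with h | h
    · exact ⟨0, (eventually_lt_nhds h).mono fun y hy => out y (Or.inl hy.le)⟩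
    · rcases lt_or_ge 9 x with g | g
      · exact ⟨0, (eventually_gt_nhds g).mono fun y hy => out y (Or.inr hy.le)⟩
      · obtain ⟨n, a, b⟩ := exists_nat_pow_near_of_lt_one (x := (x - 6) / 4) (y := ka)
          (by linarith) (by linarith) ka_pos (by norm_num [ka])
        have := kp (n + 1)
        have := kp n
        refine ⟨n, ?_⟩
        filter_upwards [Ioo_mem_nhds (show 6 + 3 * ka ^ (n + 1) < x by linarith)
          (show x < 6 + 5 * ka ^ n by linarith)] with y hy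
        exact t0_eq n (by linarith [hy.1]) (by linarith [hy.2])
  have hc : Continuous t0 := by
    refine continuous_iff_continuousAt.2 fun x => ?_
    by_cases hx : x = 6
    · subst hx
      rw [Metric.continuousAt_iff]
      refine fun e he => ⟨e / 3, by positivity, fun y hy => ?_⟩
      rw [(t0_id (Or.inl le_rfl)).1]
      rw [Real.dist_eq, abs_lt] at hy ⊢
      rcases ix_or y with g | g
      · have := pl_in (ix y + 1) 0 g
        have := kp (ix y)
        unfold t0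
        constructor <;> linarith [this, g.1]
      · rw [g.2.1]; constructor <;> linarith
    · obtain ⟨n, hn⟩ := loc x hx
      exact (pl_der n (n + 1) 0 x).continuousAt.congr (hn.mono fun y hy => hy.1.symm)
  have hd : Continuous td := by
    refine continuous_iff_continuousAt.2 fun x => ?_
    by_cases hx : x = 6
    · subst hx
      rw [Metric.continuousAt_iff]
      intro e he
      obtain ⟨N, hN⟩ := eventually_atTop.1 (wd_small 0 1 (half_pos he))
      refine ⟨ka ^ N, kp N, fun y hy => ?_⟩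
      rw [(t0_id (Or.inl le_rfl)).2]
      rw [Real.dist_eq] at hy ⊢
      rcases ix_or y with g | g
      · refine (hN (ix y) ?_ _).trans_lt (half_lt_self he)
        by_contra hc
        have := kanti (not_le.1 hc).le
        linarith [g.1, (abs_lt.1 hy).2]
      · rw [g.2.2]; simpa using he
    · obtain ⟨n, hn⟩ := loc x hx
      refine ContinuousAt.congr (f := fun y => wd n (n + 1) 0 ((y - 6) / ka ^ n - 2)) ?_
        (hn.mono fun y hy => hy.2.symm)
      exact ((wd_cont n (n + 1) 0).comp (by fun_prop)).continuousAt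
  have der := der_of hc hd (s := {6}) (countable_singleton _) fun x hx => by
    obtain ⟨n, hn⟩ := loc x hx
    rw [hn.self_of_nhds.2]
    exact (pl_der n (n + 1) 0 x).congr_of_eventuallyEq (hn.mono fun y hy => hy.1)
  exact ⟨C1.of hd (fun x => wd_pos _ _ _ _) der, fun x => by rw [(der x).deriv]; exact wd_le _ _⟩

end Pool.Agent.H.MP_5a4e9f_an
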