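import Pool.Agent.H.MP_5a4e9f_an.B

namespace Pool.Agent.H.MP_5a4e9f_an
open Set Filter Topology

lemma Ht : ∀ x : ℝ, -3 - 1 < x → x < -3 + 1 → t0 (x + 24) = t0 x + 24 := fun x a b => by
  rw [(t0_id (Or.inl (by linarith : x ≤ 6))).1, (t0_id (Or.inr (by linarith : 9 ≤ x + 24))).1]
lemma Hu : ∀ x : ℝ, -6 - 1 < x → x < -6 + 1 → wf 0 0 10 (x + 12) = wf 0 0 10 x + 12 := fun x a b => by
  rw [wf_out _ _ _ (le_abs.2 (Or.inl (by linarith))), wf_out _ _ _ (le_abs.2 (Or.inr (by linarith)))]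
lemma Hh : ∀ x : ℝ, -6 - 1 < x → x < -6 + 1 → f0 (x + 12) = f0 x + 12 := fun x a b => by
  have := f0_neg (-x)
  rw [neg_neg, (f0_c (by linarith : 1 ≤ -x)).1] at this
  rw [this, (f0_c (by linarith : 1 ≤ x + 12)).1]; ring

lemma p24 (a : ℝ) (f : ℝ → ℝ) (x : ℝ) : per 12 a f (x + 24) = per 12 a f x + 24 := by
  have := per_add (L := 12) (by norm_num) a f 2 x
  norm_num at this; exact this
lemma p24' (a : ℝ) (f : ℝ → ℝ) (x : ℝ) : per 24 a f (x + 24) = per 24 a f x + 24 := by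
  simpa using per_add (L := 24) (by norm_num) a f 1 x

noncomputable def rr : ℝ ≃o ℝ := mkI (fun x => x + 8) (C1.add 8) fun x => by ring
noncomputable def u : ℝ ≃o ℝ :=
  mkI (per 12 (-6) (wf 0 0 10)) (per_C1 (by norm_num) (C1_wf 0 0 10) Hu) (p24 _ _)
noncomputable def h0 : ℝ ≃o ℝ := mkI (per 12 (-6) f0) (per_C1 (by norm_num) C1_f0 Hh) (p24 _ _)
noncomputable def tt : ℝ ≃o ℝ :=
  mkI (per 24 (-3) t0) (per_C1 (by norm_num) t0_all.1 Ht) (p24' _ _)
noncomputable def h : ℝ ≃o ℝ := h0 * tt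

lemma rr_mem : rr ∈ Gc := ⟨C1.add 8, fun x => by simp only [rr, mkI_apply]; ring⟩
lemma u_mem : u ∈ Gc := ⟨per_C1 (by norm_num) (C1_wf 0 0 10) Hu, p24 _ _⟩
lemma h_mem : h ∈ Gc := Gc.mul_mem ⟨per_C1 (by norm_num) C1_f0 Hh, p24 _ _⟩
  ⟨per_C1 (by norm_num) t0_all.1 Ht, p24' _ _⟩

lemma gper {f : ℝ ≃o ℝ} (hf : f ∈ Gc) (k : ℤ) (x : ℝ) : f (x + 24 * k) = f x + 24 * k :=
  per_int hf.2 k x

lemma zp {f : ℝ ≃o ℝ} {p : ℝ → ℝ} {c : ℝ} (H : ∀ t, f (p t) = p (t + c)) (k : ℤ) (t : ℝ) :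
    (f ^ k) (p t) = p (t + c * k) := by
  induction k using Int.induction_on generalizing t with
  | zero => simp
  | succ k ih => rw [zpow_add_one, ma, H, ih]; push_cast; congr 1; ring
  | pred k ih =>
    rw [zpow_sub_one, ma, inv_eq (show f (p (t - c)) = p t by rw [H, sub_add_cancel]), ih]
    push_cast; congr 1; ring

lemma rz (i : ℤ) (x : ℝ) : (rr ^ i) x = x + 8 * i := zp (p := id) (fun _ => rfl) i x
lemma zfix {f : ℝ ≃o ℝ} {x : ℝ} (H : f x = x) (k : ℤ) : (f ^ k) x = x :=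
  zp (p := fun _ => x) (c := 0) (fun _ => H) k 0

lemma u_eq {x : ℝ} (a : -7 < x) (b : x < 7) (n : ℤ) : u (x + 12 * n) = wf 0 0 10 x + 12 * n := by
  rw [u, mkI_apply, per_add (by norm_num), per_eq (by norm_num) Hu (by linarith) (by linarith)]
lemma uz (k n : ℤ) (t : ℝ) : (u ^ k) (ps 0 t + 12 * n) = ps 0 (t + 10 * k) + 12 * n :=
  zp (p := fun t => ps 0 t + 12 * n) (fun t => by
    obtain ⟨a, b⟩ := abs_lt.1 (ps_abs 0 t)
    rw [u_eq (by linarith) (by linarith), wf_ps]) k t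
lemma u_fix {x : ℝ} (a : 1 ≤ x) (b : x ≤ 11) (n : ℤ) : u (x + 12 * n) = x + 12 * n := by
  rcases le_total x 6 with g | g
  · rw [u_eq (by linarith) (by linarith), wf_out _ _ _ (le_abs.2 (Or.inl a))]
  · have := u_eq (x := x - 12) (by linarith) (by linarith) (n + 1)
    rw [wf_out _ _ _ (le_abs.2 (Or.inr (by linarith)))] at this
    push_cast at this
    rw [show x + 12 * n = x - 12 + 12 * (n + 1) by ring, this]

lemma h0_eq {x : ℝ} (a : -7 < x) (b : x < 7) (n : ℤ) : h0 (x + 12 * n) = f0 x + 12 * n := by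
  rw [h0, mkI_apply, per_add (by norm_num), per_eq (by norm_num) Hh (by linarith) (by linarith)]
lemma h0_aff {x : ℝ} (a : 1 ≤ x) (b : x ≤ 11) (n : ℤ) :
    h0 (x + 12 * n) = 6 + 3 / 50 * (x - 6) + 12 * n := by
  rcases le_total x 6 with g | g
  · rw [h0_eq (by linarith) (by linarith), (f0_c a).1]
  · have := h0_eq (x := -(12 - x)) (by linarith) (by linarith) (n + 1)
    rw [f0_neg, (f0_c (by linarith)).1] at this
    push_cast at this
    rw [show x + 12 * n = -(12 - x) + 12 * (n + 1) by ring, this]; ring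
lemma tt_eq {x : ℝ} (a : -4 < x) (b : x < 22) : tt x = t0 x := by
  rw [tt, mkI_apply, per_eq (by norm_num) Ht (by linarith) (by linarith)]
lemma tt_fix {x : ℝ} (a : 9 ≤ x) (b : x ≤ 30) (n : ℤ) : tt (x + 24 * n) = x + 24 * n := by
  rw [tt, mkI_apply, per_add (by norm_num)]
  congr 1
  rcases lt_or_ge x 22 with g | g
  · rw [per_eq (by norm_num) Ht (by linarith) (by linarith), (t0_id (Or.inr a)).1]
  · have := p24' (-3) t0 (x - 24)
    rw [per_eq (by norm_num) Ht (x := x - 24) (by linarith) (by linarith),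
      (t0_id (Or.inl (by linarith))).1, sub_add_cancel] at this
    exact this
lemma h_eq {x : ℝ} (a : -3 ≤ x) (b : x ≤ 3) (n : ℤ) : h (x + 12 * n) = f0 x + 12 * n := by
  have : tt (x + 12 * n) = x + 12 * n := by
    rcases Int.even_or_odd' n with ⟨k, rfl | rfl⟩
    · have := tt_fix (x := x + 24) (by linarith) (by linarith) (k - 1)
      push_cast at this ⊢
      rw [show x + 12 * (2 * k) = x + 24 + 24 * (k - 1) by ring, this]
    · have := tt_fix (x := x + 12) (by linarith) (by linarith) k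
      push_cast at this ⊢
      rw [show x + 12 * (2 * k + 1) = x + 12 + 24 * k by ring, this]
  rw [h, ma, this, h0_eq (by linarith) (by linarith)]
lemma hV {x : ℝ} (a : |x| ≤ 1 / 3) (n : ℤ) : h (x + 12 * n) = ph 0 x + 12 * n := by
  rw [h_eq (by linarith [(abs_le.1 a).1]) (by linarith [(abs_le.1 a).2]), (f0_a a).1]
lemma hR {x : ℝ} (a : 1 / 3 ≤ x) (b : x ≤ 1) (n : ℤ) : h (x + 12 * n) = mb x + 12 * n := by
  rw [h_eq (by linarith) (by linarith), (f0_b a b).1]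
lemma hL {x : ℝ} (a : 1 / 3 ≤ x) (b : x ≤ 1) (n : ℤ) : h (-x + 12 * n) = -mb x + 12 * n := by
  rw [h_eq (by linarith) (by linarith), f0_neg, (f0_b a b).1]
lemma ps5 : ps 0 5 = 1 / 3 := by
  rw [← ps_ph 0 (show |(1 / 3 : ℝ)| < 1 by norm_num [abs_lt])]; norm_num [ph]
lemma ps5' : ps 0 (-5) = -(1 / 3) := by rw [ps_neg, ps5]
lemma hi {t : ℝ} (a : -5 ≤ t) (b : t ≤ 5) (n : ℤ) : h⁻¹ (t + 12 * n) = ps 0 t + 12 * n := by
  have a1 := (ps_mono 0).monotone a
  have a2 := (ps_mono 0).monotone b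
  rw [ps5'] at a1
  rw [ps5] at a2
  exact inv_eq (by rw [hV (abs_le.2 ⟨a1, a2⟩), ph_ps])
lemma uh {t : ℝ} (a : -5 ≤ t) (b : t ≤ 5) (k n : ℤ) :
    (u ^ k * h⁻¹) (t + 12 * n) = ps 0 (t + 10 * k) + 12 * n := by rw [ma, hi a b, uz]
lemma t0_mem {x : ℝ} (a : 1 ≤ x) (b : x ≤ 11) : 1 ≤ t0 x ∧ t0 x ≤ 11 := by
  have a1 := t0_all.1.mono.monotone a
  have a2 := t0_all.1.mono.monotone b
  rw [(t0_id (Or.inl (by norm_num))).1] at a1
  rw [(t0_id (x := 11) (Or.inr (by norm_num))).1] at a2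
  exact ⟨a1, a2⟩
lemma hA {x : ℝ} (a : 1 ≤ x) (b : x ≤ 11) : h x = 6 + 3 / 50 * (t0 x - 6) := by
  have := h0_aff (t0_mem a b).1 (t0_mem a b).2 0
  simp only [Int.cast_zero, mul_zero, add_zero] at this
  rw [h, ma, tt_eq (by linarith) (by linarith), this]
lemma hB {x : ℝ} (a : 13 ≤ x) (b : x ≤ 23) : h x = 18 + 3 / 50 * (x - 18) := by
  have := h0_aff (x := x - 12) (by linarith) (by linarith) 1
  have e := tt_fix (x := x) (by linarith) (by linarith) 0
  simp only [Int.cast_zero, mul_zero, add_zero, Int.cast_one, mul_one, sub_add_cancel] at this e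
  rw [h, ma, e, this]; ring
lemma h_1 (n : ℤ) : h (1 + 12 * n) = 57 / 10 + 12 * n := by
  rw [hR (by norm_num) le_rfl]; norm_num [mb]
lemma h_m1 (n : ℤ) : h (-1 + 12 * n) = -(57 / 10) + 12 * n := by
  rw [hL (by norm_num) le_rfl]; norm_num [mb]
lemma h_3 (n : ℤ) : h (1 / 3 + 12 * n) = 5 + 12 * n := by
  rw [hR le_rfl (by norm_num)]; norm_num [mb]
lemma h_m3 (n : ℤ) : h (-(1 / 3) + 12 * n) = -5 + 12 * n := by
  rw [hL le_rfl (by norm_num)]; norm_num [mb]

lemma hpow1 {x : ℝ} (a : 1 ≤ x ∧ x ≤ 6 ∨ 6 + 9 / 50 ≤ x ∧ x ≤ 7) (m : ℕ) :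
    (h ^ m) x = 6 + ka ^ m * (x - 6) := by
  induction m with
  | zero => simp
  | succ m ih =>
    have := kp m
    have := k1 m
    have e : t0 (6 + ka ^ m * (x - 6)) = 6 + ka ^ m * (x - 6) := by
      rcases a with a | a
      · exact (t0_id (Or.inl (by nlinarith [a.2]))).1
      · rw [(t0_eq m (by rw [ksucc]; nlinarith [a.1]) (by nlinarith [a.2])).1]
        exact pl_out _ _ fun c => by nlinarith [c.1, a.2]
    rw [pow_succ', ma, ih, hA, e, ksucc]
    · ring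
    · rcases a with a | a <;> nlinarith [a.1, a.2]
    · rcases a with a | a <;> nlinarith [a.1, a.2]
lemma hpowB {x : ℝ} (a : 13 ≤ x) (b : x ≤ 23) (m : ℕ) : (h ^ m) x = 18 + ka ^ m * (x - 18) := by
  induction m with
  | zero => simp
  | succ m ih =>
    have := kp m
    have := k1 m
    rw [pow_succ', ma, ih, hB (by nlinarith) (by nlinarith), ksucc]; ring
lemma hpowV {z : ℝ} (a : |z| ≤ 1) (m : ℕ) :
    (h ^ m) (z + 8) = 6 + ka ^ m * (2 + wf 0 m 0 z) := by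
  induction m with
  | zero => simp [wf_id]; ring
  | succ m ih =>
    have := kp m
    have := k1 m
    obtain ⟨b1, b2⟩ := abs_le.1 (wf_abs 0 m 0 a)
    rw [pow_succ', ma, ih, hA (by nlinarith) (by nlinarith),
      (t0_eq m (by rw [ksucc]; nlinarith) (by nlinarith)).1, pl, ksucc]
    rw [show (6 + ka ^ m * (2 + wf 0 m 0 z) - 6) / ka ^ m - 2 = wf 0 m 0 z by field_simp; ring,
      wf_comp, add_zero]
    ring

lemma h_lip {x y : ℝ} (n : ℤ) (a : 1 + 12 * n ≤ x) (b : x ≤ y) (c : y ≤ 11 + 12 * n) :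
    h y - h x ≤ (y - x) / 2 := by
  rcases Int.even_or_odd' n with ⟨k, rfl | rfl⟩
  · push_cast at a c
    have e := fun z => gper h_mem k (z - 24 * k)
    simp only [sub_add_cancel] at e
    rw [e x, e y, hA (by linarith) (by linarith), hA (by linarith) (by linarith)]
    have := image_sub_le_mul_sub_of_deriv_le (t0_all.1.1.differentiable one_ne_zero) t0_all.2
      (show x - 24 * k ≤ y - 24 * k by linarith)
    linarith
  · push_cast at a c
    have e := fun z => gper h_mem k (z - 24 * k)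
    simp only [sub_add_cancel] at e
    rw [e x, e y, hB (by linarith) (by linarith), hB (by linarith) (by linarith)]
    linarith

end Pool.Agent.H.MP_5a4e9f_an
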