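import Pool.Agent.H.MP_5a4e9f_an.C

namespace Pool.Agent.H.MP_5a4e9f_an
open Set Filter Topology

def In (s : ℝ ≃o ℝ) (lo c : ℤ) : Prop :=
  ∀ n : ℤ, (c:ℝ) - 1 + 12 * n ≤ s (lo + 12 * n) ∧ s (lo + 10 + 12 * n) ≤ c + 1 + 12 * n

lemma Lv (k : ℤ) : In (u ^ k * h⁻¹) (-5) 0 := by
  intro n
  push_cast
  rw [uh le_rfl (by norm_num), uh (by norm_num) (by norm_num)]
  exact ⟨by linarith [(abs_lt.1 (ps_abs 0 (-5 + 10 * k))).1],
    by linarith [(abs_lt.1 (ps_abs 0 (-5 + 10 + 10 * k))).2]⟩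
lemma Lp : In h 1 6 := by
  intro n
  have := h_m1 (n + 1)
  push_cast at this ⊢
  rw [h_1, show (1:ℝ) + 10 + 12 * n = -1 + 12 * (n + 1) by ring, this]
  constructor <;> linarith
lemma Ld {k : ℤ} (hk : k ≠ 0) : In (h * u ^ k * h⁻¹) (-5) 6 ∨ In (h * u ^ k * h⁻¹) (-5) (-6) := by
  rcases lt_or_gt_of_ne hk with g | g
  · refine Or.inr fun n => ?_
    have g' : (k:ℝ) ≤ -1 := by exact_mod_cast Int.le_sub_one_of_lt g
    push_cast
    rw [show (-5:ℝ) + 10 = 5 by norm_num, mul_assoc, ma h, ma h, uh le_rfl (by norm_num), uh (by norm_num) (by norm_num)]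
    have a := h.monotone (show -1 + 12 * (n:ℝ) ≤ ps 0 (-5 + 10 * k) + 12 * n by
      linarith [(abs_lt.1 (ps_abs 0 (-5 + 10 * k))).1])
    have b := h.monotone (show ps 0 (5 + 10 * k) + 12 * (n:ℝ) ≤ -(1 / 3) + 12 * n by
      linarith [ps5', (ps_mono 0).monotone (show 5 + 10 * (k:ℝ) ≤ -5 by linarith)])
    rw [h_m1] at a
    rw [h_m3] at b
    constructor <;> linarith
  · refine Or.inl fun n => ?_
    have g' : (1:ℝ) ≤ k := by exact_mod_cast g
    push_cast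
    rw [show (-5:ℝ) + 10 = 5 by norm_num, mul_assoc, ma h, ma h, uh le_rfl (by norm_num), uh (by norm_num) (by norm_num)]
    have a := h.monotone (show 1 / 3 + 12 * (n:ℝ) ≤ ps 0 (-5 + 10 * k) + 12 * n by
      linarith [ps5, (ps_mono 0).monotone (show 5 ≤ -5 + 10 * (k:ℝ) by linarith)])
    have b := h.monotone (show ps 0 (5 + 10 * k) + 12 * (n:ℝ) ≤ 1 + 12 * n by
      linarith [(abs_lt.1 (ps_abs 0 (5 + 10 * k))).2])
    rw [h_3] at a
    rw [h_1] at b
    constructor <;> linarith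

def cj (a s : ℝ ≃o ℝ) : ℝ ≃o ℝ := a * s * a⁻¹
def Supp (s : ℝ ≃o ℝ) (c : ℤ) : Prop :=
  ∀ x, s x ≠ x → ∃ n : ℤ, (c:ℝ) - 1 + 12 * n < x ∧ x < c + 1 + 12 * n

lemma supp_step {a s : ℝ ≃o ℝ} {lo c c' i : ℤ} (ha : In a lo c') (hs : Supp s c)
    (H : ∃ m : ℤ, lo + 12 * m ≤ c + 8 * i - 1 ∧ c + 8 * i + 1 ≤ lo + 10 + 12 * m) :
    Supp (cj (a * rr ^ i) s) c' := by
  intro x hx
  obtain ⟨m, m1, m2⟩ := H
  have m1' : (lo:ℝ) + 12 * m ≤ c + 8 * i - 1 := by exact_mod_cast m1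
  have m2' : (c:ℝ) + 8 * i + 1 ≤ lo + 10 + 12 * m := by exact_mod_cast m2
  obtain ⟨y, rfl⟩ : ∃ y, x = (a * rr ^ i) y := ⟨_, (vi _ x).symm⟩
  obtain ⟨n, n1, n2⟩ := hs y fun e => hx (by rw [cj, ma, ma, iv, e])
  obtain ⟨b1, b2⟩ := ha (n + m)
  refine ⟨n + m, b1.trans_lt ?_, lt_of_lt_of_le ?_ b2⟩ <;> rw [ma, rz] <;> apply a.strictMono <;>
    push_cast <;> linarith

inductive S : ℤ → (ℝ ≃o ℝ) → Prop
  | u : S 0 u
  | v (c s i k) : S c s → (c = 6 → ¬3 ∣ i) → S 0 (cj (u ^ (k:ℤ) * h⁻¹ * rr ^ (i:ℤ)) s)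
  | p (c s i) : S c s → (c = 0 → ¬3 ∣ i) → S 6 (cj (h * rr ^ (i:ℤ)) s)
  | d (c s i k) : S c s → (c = 6 → ¬3 ∣ i) → k ≠ 0 →
      S 6 (cj (h * u ^ (k:ℤ) * h⁻¹ * rr ^ (i:ℤ)) s)

lemma S_c {c s} (hs : S c s) : c = 0 ∨ c = 6 := by cases hs <;> simp

lemma cj_mem {K : Subgroup (ℝ ≃o ℝ)} {a s} (ha : a ∈ K) (hs : s ∈ K) : cj a s ∈ K :=
  K.mul_mem (K.mul_mem ha hs) (K.inv_mem ha)

lemma S_mem {c s} (hs : S c s) : s ∈ Gc := by
  have := h_mem
  have := u_mem
  have := rr_mem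
  induction hs with
  | u => exact u_mem
  | v c s i k _ _ ih => exact cj_mem (by aesop) ih
  | p c s i _ _ ih => exact cj_mem (by aesop) ih
  | d c s i k _ _ _ ih => exact cj_mem (by aesop) ih

lemma S_supp {c s} (hs : S c s) : Supp s c := by
  induction hs with
  | u =>
    intro x hx
    refine ⟨⌊(x + 1) / 12⌋, ?_⟩
    have a := Int.floor_le ((x + 1) / 12)
    have b := Int.lt_floor_add_one ((x + 1) / 12)
    generalize ⌊(x + 1) / 12⌋ = n at *
    push_cast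
    constructor
    · by_contra hc
      have := u_fix (x := 11) (by norm_num) le_rfl (n - 1)
      push_cast at this
      exact hx (by rwa [show x = 11 + 12 * ((n:ℝ) - 1) by linarith])
    · by_contra hc
      have := u_fix (x := x - 12 * n) (by linarith) (by linarith) n
      exact hx (by rwa [sub_add_cancel] at this)
  | v c s i k hs H ih =>
    exact supp_step (Lv k) ih ⟨(c + 8 * i + 4) / 12, by have := S_c hs; omega⟩
  | p c s i hs H ih =>
    exact supp_step Lp ih ⟨(c + 8 * i - 2) / 12, by have := S_c hs; omega⟩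
  | d c s i k hs H hk ih =>
    rcases Ld hk with g | g
    · exact supp_step g ih ⟨(c + 8 * i + 4) / 12, by have := S_c hs; omega⟩
    · intro x hx
      obtain ⟨n, n1, n2⟩ := supp_step g ih ⟨(c + 8 * i + 4) / 12, by have := S_c hs; omega⟩ x hx
      refine ⟨n - 1, ?_⟩
      push_cast at *
      constructor <;> linarith

lemma cen {i : ℤ} (hi : 3 ∣ i) {f : ℝ ≃o ℝ} (hf : f ∈ Gc) : rr ^ i * f = f * rr ^ i := by
  obtain ⟨q, rfl⟩ := hi
  ext x
  rw [ma, ma, rz, rz]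
  have := gper hf q x
  push_cast
  rw [show x + 8 * (3 * (q:ℝ)) = x + 24 * q by ring, this]; ring

lemma cj_cen {i : ℤ} (hi : 3 ∣ i) {f : ℝ ≃o ℝ} (hf : f ∈ Gc) : cj (rr ^ i) f = f := by
  rw [cj, cen hi hf]; group

def Out (s : ℝ ≃o ℝ) : Prop := ∃ c s', ∃ i : ℤ, S c s' ∧ s = cj (rr ^ i) s'
def R : Subgroup (ℝ ≃o ℝ) := Subgroup.closure {s | Out s}

lemma S_R {c s} (hs : S c s) (i : ℤ) : cj (rr ^ i) s ∈ R := Subgroup.subset_closure ⟨c, s, i, hs, rfl⟩
lemma S_R' {c s} (hs : S c s) : s ∈ R := by simpa [cj] using S_R hs 0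
lemma u_R : u ∈ R := S_R' S.u

lemma R0 {r} (hr : r ∈ R) (j : ℤ) : r (2 * j + 1) = 2 * j + 1 := by
  induction hr using Subgroup.closure_induction with
  | mem s hs =>
    obtain ⟨c, s, i, hs, rfl⟩ := hs
    have e : (rr ^ i)⁻¹ (2 * (j:ℝ) + 1) = 2 * j + 1 - 8 * i := inv_eq (by rw [rz]; ring)
    have : s (2 * j + 1 - 8 * i) = 2 * j + 1 - 8 * i := by
      by_contra hc
      obtain ⟨n, n1, n2⟩ := S_supp hs _ hc
      have n1' : c - 1 + 12 * n < 2 * j + 1 - 8 * i := by exact_mod_cast n1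
      have n2' : 2 * j + 1 - 8 * i < c + 1 + 12 * n := by exact_mod_cast n2
      have := S_c hs
      omega
    rw [cj, ma, ma, e, this, rz]; ring
  | one => rfl
  | mul a b _ _ ha hb => rw [ma, hb, ha]
  | inv a _ ha => exact inv_eq ha

lemma R_cj {a : ℝ ≃o ℝ} (H : ∀ s, Out s → cj a s ∈ R) {r} (hr : r ∈ R) : cj a r ∈ R := by
  induction hr using Subgroup.closure_induction with
  | mem s hs => exact H s hs
  | one => simp [cj]
  | mul x y _ _ hx hy => convert R.mul_mem hx hy using 1; unfold cj; group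
  | inv x _ hx => convert R.inv_mem hx using 1; unfold cj; group

lemma Rr (j : ℤ) {r} (hr : r ∈ R) : cj (rr ^ j) r ∈ R := by
  refine R_cj ?_ hr
  rintro _ ⟨c, s, i, hs, rfl⟩
  convert S_R hs (j + i) using 1
  unfold cj; group

lemma Rh {r} (hr : r ∈ R) : cj h⁻¹ r ∈ R := by
  refine R_cj ?_ hr
  rintro _ ⟨c, s, i, hs, rfl⟩
  by_cases H : c = 6 → ¬3 ∣ i
  · convert S_R' (S.v c s i 0 hs H) using 1
    unfold cj; group
  · push Not at H
    rw [cj_cen H.2 (S_mem hs)]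
    cases hs with
    | u => simp at H
    | v => simp at H
    | p c s j hs _ => convert S_R hs j using 1; unfold cj; group
    | d c s j k hs H' _ => convert S_R' (S.v c s j k hs H') using 1; unfold cj; group

lemma comm_of {a b : ℝ ≃o ℝ} (H : ∀ x, b x ≠ x → a x = x) : a * b = b * a := by
  ext x
  rw [ma, ma]
  by_cases hx : b x = x
  · rw [hx]
    by_contra hc
    have := a.injective (H _ fun e => hc e.symm)
    exact hc (by rw [this, hx])
  · rw [H x hx, H _ fun e => hx (b.injective e)]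

lemma Ru {r} (hr : r ∈ R) : ∃ m : ℤ, ∀ k : ℤ, h * u ^ (-(k + m)) * r * u ^ k * h⁻¹ ∈ R := by
  induction hr using Subgroup.closure_induction with
  | mem s hs =>
    obtain ⟨c, s, i, hs, rfl⟩ := hs
    by_cases H : c = 0 → ¬3 ∣ i
    · refine ⟨0, fun k => ?_⟩
      have e : u ^ k * cj (rr ^ i) s = cj (rr ^ i) s * u ^ k := by
        refine comm_of fun x hx => zfix ?_ k
        obtain ⟨y, rfl⟩ : ∃ y, x = (rr ^ i) y := ⟨_, (vi _ x).symm⟩
        obtain ⟨n, n1, n2⟩ := S_supp hs y fun e => hx (by rw [cj, ma, ma, iv, e])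
        obtain ⟨m, m1, m2⟩ : ∃ m : ℤ, 1 + 12 * m ≤ c + 8 * i - 1 ∧ c + 8 * i + 1 ≤ 11 + 12 * m :=
          ⟨(c + 8 * i - 2) / 12, by have := S_c hs; omega⟩
        have m1' : (1:ℝ) + 12 * m ≤ c + 8 * i - 1 := by exact_mod_cast m1
        have m2' : (c:ℝ) + 8 * i + 1 ≤ 11 + 12 * m := by exact_mod_cast m2
        have := u_fix (x := y + 8 * i - 12 * ((n + m : ℤ) : ℝ)) (by push_cast; linarith)
          (by push_cast; linarith) (n + m)
        rwa [sub_add_cancel, ← rz] at this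
      convert S_R' (S.p c s i hs H) using 1
      rw [mul_assoc _ (cj _ _), ← e]; unfold cj; group
    · push Not at H
      rw [cj_cen H.2 (S_mem hs)]
      cases hs with
      | u => exact ⟨1, fun k => by convert R.one_mem using 1; group⟩
      | v c s j l hs H' =>
        refine ⟨0, fun k => ?_⟩
        by_cases e : l - k = 0
        · convert S_R hs j using 1
          rw [sub_eq_zero.1 e]; unfold cj; group
        · convert S_R' (S.d c s j (l - k) hs H' e) using 1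
          unfold cj; group
      | p => simp at H
      | d => simp at H
  | one => exact ⟨0, fun k => by convert R.one_mem using 1; group⟩
  | mul x y _ _ hx hy =>
    obtain ⟨m, hm⟩ := hx
    obtain ⟨l, hl⟩ := hy
    exact ⟨l + m, fun k => by convert R.mul_mem (hm (k + l)) (hl k) using 1; group⟩
  | inv x _ hx =>
    obtain ⟨m, hm⟩ := hx
    exact ⟨-m, fun k => by convert R.inv_mem (hm (k - m)) using 1; group⟩

inductive Fr : (ℝ ≃o ℝ) → ℤ → Prop
  | root : Fr 1 0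
  | v (e t i k) : Fr e t → (t = 1 → ¬3 ∣ i) → Fr (e * rr ^ (i:ℤ) * (u ^ (k:ℤ) * h⁻¹)) (-5)
  | d (e t i k) : Fr e t → (t = -5 → ¬3 ∣ i) → k ≠ 0 →
      Fr (e * rr ^ (i:ℤ) * (h * u ^ (k:ℤ) * h⁻¹)) (-5)
  | p (e t i) : Fr e t → (t = -5 → ¬3 ∣ i) → Fr (e * rr ^ (i:ℤ) * h) 1

def G : Subgroup (ℝ ≃o ℝ) := Subgroup.closure {rr, h, u}
lemma rr_G : rr ∈ G := Subgroup.subset_closure (by simp)
lemma h_G : h ∈ G := Subgroup.subset_closure (by simp)
lemma u_G : u ∈ G := Subgroup.subset_closure (by simp)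
lemma G_le {g} (hg : g ∈ G) : g ∈ Gc := by
  refine (Subgroup.closure_le Gc).2 ?_ hg
  rintro x (rfl | rfl | rfl)
  exacts [rr_mem, h_mem, u_mem]

lemma Fr_G {e t} (he : Fr e t) : e ∈ G := by
  have := h_G
  have := u_G
  have := rr_G
  induction he <;> aesop

lemma decomp {g} (hg : g ∈ G) : ∃ e t, ∃ i : ℤ, ∃ r ∈ R, Fr e t ∧ g = e * rr ^ i * r := by
  have hm := h_mem
  have um := u_mem
  induction hg using Subgroup.closure_induction_right with
  | one => exact ⟨1, 0, 0, 1, R.one_mem, Fr.root, by simp⟩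
  | mul_right x _ y hy ih =>
    obtain ⟨e, t, i, r, hr, he, rfl⟩ := ih
    rcases hy with rfl | rfl | rfl
    · exact ⟨e, t, i + 1, _, Rr (-1) hr, he, by unfold cj; group⟩
    · by_cases H : t = -5 → ¬3 ∣ i
      · exact ⟨_, _, 0, _, Rh hr, Fr.p e t i he H, by unfold cj; group⟩
      · push Not at H
        have c1 := cen H.2 (Gc.inv_mem hm)
        cases he with
        | root => simp at H
        | v e t j k he H' =>
          have c2 := cen H.2 (Gc.zpow_mem um k)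
          refine ⟨e, t, j + i, _, R.mul_mem (R.zpow_mem u_R k) (Rh hr), he, ?_⟩
          rw [mul_assoc (e * rr ^ j), mul_assoc (u ^ k), ← c1, ← mul_assoc (u ^ k), ← c2]
          unfold cj; group
        | d e t j k he H' _ =>
          have c2 := cen H.2 (Gc.zpow_mem um k)
          refine ⟨_, _, i, _, R.mul_mem (R.zpow_mem u_R k) (Rh hr), Fr.p e t j he H', ?_⟩
          rw [mul_assoc (e * rr ^ j), mul_assoc (h * u ^ k), ← c1, mul_assoc h, ← mul_assoc (u ^ k),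
            ← c2]
          unfold cj; group
        | p => simp at H
    · exact ⟨e, t, i, _, R.mul_mem hr u_R, he, by group⟩
  | mul_inv_cancel x _ y hy ih =>
    obtain ⟨e, t, i, r, hr, he, rfl⟩ := ih
    rcases hy with rfl | rfl | rfl
    · exact ⟨e, t, i - 1, _, Rr 1 hr, he, by unfold cj; group⟩
    · obtain ⟨m, hm'⟩ := Ru hr
      have hr' := hm' 0
      by_cases H : t = 1 → ¬3 ∣ i
      · exact ⟨_, _, 0, _, hr', Fr.v e t i m he H, by group⟩
      · push Not at H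
        have c1 := cen H.2 hm
        generalize ht : t = t' at he
        cases he with
        | root => simp [ht] at H
        | v => simp [ht] at H
        | d => simp [ht] at H
        | p e t j he H' =>
          rw [mul_assoc (e * rr ^ j), ← c1]
          by_cases e0 : m = 0
          · exact ⟨e, t, j + i, _, hr', he, by subst e0; group⟩
          · exact ⟨_, _, 0, _, hr', Fr.d e t (j + i) m he (by omega) e0, by group⟩
    · exact ⟨e, t, i, _, R.mul_mem hr (R.inv_mem u_R), he, by group⟩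

lemma Fr_loc {e t} (he : Fr e t) :
    (t = 0 ∧ e = 1) ∨ ((t = -5 ∨ t = 1) ∧ ∃ m : ℤ, In e t (2 * m)) := by
  have step : ∀ e a t lo, ∀ c i : ℤ, ((t = 0 ∧ e = 1) ∨ ((t = -5 ∨ t = 1) ∧ ∃ m : ℤ, In e t (2 * m))) →
      In a lo (2 * c) → (t ≠ 0 → ∃ m : ℤ, t + 12 * m ≤ 2 * c + 8 * i - 1 ∧
        2 * c + 8 * i + 1 ≤ t + 10 + 12 * m) → ∃ m : ℤ, In (e * rr ^ i * a) lo (2 * m) := by
    rintro e a t lo c i (⟨rfl, rfl⟩ | ⟨ht, m, hm⟩) ha H
    · refine ⟨c + 4 * i, fun n => ?_⟩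
      obtain ⟨b1, b2⟩ := ha n
      rw [one_mul, ma, ma, rz, rz]
      push_cast at *
      constructor <;> linarith
    · obtain ⟨l, l1, l2⟩ := H (by omega)
      have l1' : (t:ℝ) + 12 * l ≤ 2 * c + 8 * i - 1 := by exact_mod_cast l1
      have l2' : 2 * (c:ℝ) + 8 * i + 1 ≤ t + 10 + 12 * l := by exact_mod_cast l2
      refine ⟨m + 6 * l, fun n => ?_⟩
      obtain ⟨b1, b2⟩ := ha n
      obtain ⟨d1, d2⟩ := hm (n + l)
      rw [ma, ma, ma, ma, rz, rz]
      push_cast at *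
      have f1 := e.monotone (show (t:ℝ) + 12 * (n + l) ≤ a (lo + 12 * n) + 8 * i by linarith)
      have f2 := e.monotone (show a (lo + 10 + 12 * n) + 8 * i ≤ (t:ℝ) + 10 + 12 * (n + l) by linarith)
      constructor <;> linarith
  induction he with
  | root => exact Or.inl ⟨rfl, rfl⟩
  | v e t i k he H ih =>
    exact Or.inr ⟨Or.inl rfl, step e _ t _ 0 i ih (Lv k) fun _ =>
      ⟨(8 * i - 1 - t) / 12, by omega⟩⟩
  | d e t i k he H hk ih =>
    rcases Ld hk with g | g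
    · exact Or.inr ⟨Or.inl rfl, step e _ t _ 3 i ih g fun _ => ⟨(8 * i + 5 - t) / 12, by omega⟩⟩
    · exact Or.inr ⟨Or.inl rfl, step e _ t _ (-3) i ih (by simpa using g) fun _ => ⟨(8 * i - 7 - t) / 12, by omega⟩⟩
  | p e t i he H ih =>
    exact Or.inr ⟨Or.inr rfl, step e _ t _ 3 i ih Lp fun _ => ⟨(8 * i + 5 - t) / 12, by omega⟩⟩

lemma In_odd {e : ℝ ≃o ℝ} {t c : ℤ} (ht : t = -5 ∨ t = 1) (he : In e t c) (j : ℤ) :
    ∃ n : ℤ, ∀ l : ℤ, (c:ℝ) - 1 + 12 * (n + l) ≤ e (2 * j + 1 + 12 * l) ∧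
      e (2 * j + 1 + 12 * l) ≤ c + 1 + 12 * (n + l) := by
  obtain ⟨n, n1, n2⟩ : ∃ n : ℤ, t + 12 * n ≤ 2 * j + 1 ∧ 2 * j + 1 ≤ t + 10 + 12 * n :=
    ⟨(2 * j + 1 - t) / 12, by omega⟩
  have n1' : (t:ℝ) + 12 * n ≤ 2 * j + 1 := by exact_mod_cast n1
  have n2' : 2 * (j:ℝ) + 1 ≤ t + 10 + 12 * n := by exact_mod_cast n2
  refine ⟨n, fun l => ?_⟩
  obtain ⟨b1, b2⟩ := he (n + l)
  push_cast at b1 b2
  exact ⟨b1.trans (e.monotone (by linarith)), (e.monotone (by linarith)).trans b2⟩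

lemma odd_img {e : ℝ ≃o ℝ} {r} (hr : r ∈ R) (i j l : ℤ) :
    (e * rr ^ i * r) (2 * j + 1 + 12 * l) = e (2 * ((j + 4 * i : ℤ) : ℝ) + 1 + 12 * l) := by
  have := R0 hr (j + 6 * l)
  push_cast at this ⊢
  rw [ma, ma, show 2 * (j:ℝ) + 1 + 12 * l = 2 * (j + 6 * l) + 1 by ring, this, rz]
  congr 1; ring

lemma anti {g} (hg : g ∈ G) : 10 ≤ g 19 - g 7 ∧ g 19 - g 7 ≤ 14 := by
  obtain ⟨e, t, i, r, hr, he, rfl⟩ := decomp hg
  have a := odd_img (e := e) hr i 3 0
  have b := odd_img (e := e) hr i 3 1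
  norm_num at a b
  rw [ma, ma, ma, ma, a, b]
  rcases Fr_loc he with ⟨-, rfl⟩ | ⟨ht, m, hm⟩
  · simp only [RelIso.one_apply]; constructor <;> linarith
  · obtain ⟨n, hn⟩ := In_odd ht hm (3 + 4 * i)
    have c := hn 0
    have d := hn 1
    norm_num at c d
    constructor <;> linarith [c.1, c.2, d.1, d.2]

lemma top {g} (hg : g ∈ G) (H : ∀ x, |g x - x| < 1) : g ∈ R := by
  obtain ⟨e, t, i, r, hr, he, rfl⟩ := decomp hg
  rcases Fr_loc he with ⟨-, rfl⟩ | ⟨ht, m, hm⟩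
  · have a := H (2 * (0:ℤ) + 1 + 12 * (0:ℤ))
    rw [odd_img hr, abs_lt] at a
    simp only [RelIso.one_apply] at a
    have a1 : -1 < 8 * i := by exact_mod_cast (show (-1:ℝ) < 8 * i by push_cast at a; linarith [a.1])
    have a2 : 8 * i < 1 := by exact_mod_cast (show 8 * (i:ℝ) < 1 by push_cast at a; linarith [a.2])
    obtain rfl : i = 0 := by omega
    simpa using hr
  · have a := H (2 * ((m + 2 : ℤ) : ℝ) + 1 + 12 * (0:ℤ))
    rw [odd_img hr, abs_lt] at a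
    obtain ⟨n, hn⟩ := In_odd ht hm (m + 2 + 4 * i)
    obtain ⟨c, d⟩ := hn 0
    push_cast at a c d
    have a1 : 3 < 12 * n := by exact_mod_cast (show (3:ℝ) < 12 * n by linarith [a.1])
    have a2 : 12 * n < 7 := by exact_mod_cast (show 12 * (n:ℝ) < 7 by linarith [a.2])
    omega

end Pool.Agent.H.MP_5a4e9f_an
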