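import Pool.Agent.H.MP_5a4e9f_an.D

namespace Pool.Agent.H.MP_5a4e9f_an
open Set Filter Topology

def Gap (Z : Set ℝ) (x y : ℝ) : Prop := x < y ∧ ∀ z, x < z → z < y → z ∉ Z

lemma mb_sub {a b : ℝ} (ha : 1 / 3 ≤ a) (hb : 1 / 3 ≤ b) :
    mb b - mb a = 294 * (b - a) / ((99 * a - 29) * (99 * b - 29)) := by
  have : 99 * a - 29 ≠ 0 := by linarith
  have : 99 * b - 29 ≠ 0 := by linarith
  unfold mb
  rw [add_sub_add_left_eq_sub, div_sub_div _ _ (by linarith) (by linarith),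
    div_eq_div_iff (by positivity) (by positivity)]
  ring

lemma side {a b : ℝ} (ha : 1 / 3 ≤ a) (ab : a < b) (hb : b < 1) :
    mb b - mb a ≤ 2 * (ph 0 b - ph 0 a) ∧ (2 / 5 ≤ a → 2 * (mb b - mb a) ≤ ph 0 b - ph 0 a) ∧
      (a < 2 / 5 → ph 0 a < 7) ∧ 5 ≤ ph 0 a := by
  have a1 : |a| < 1 := abs_lt.2 ⟨by linarith, by linarith⟩
  have b1 : |b| < 1 := abs_lt.2 ⟨by linarith, by linarith⟩
  have d : 33 / 2 ≤ dd 0 a b := by
    have k : ∀ x : ℝ, 1 / 3 ≤ x → x < 1 → 3 / 2 ≤ 1 / (1 - x) := fun x x1 x2 => by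
      rw [le_div_iff₀ (by linarith)]; linarith
    have a2 := half_le (x := 1 + a) (by linarith) (by linarith)
    have a4 := half_le (x := 1 + b) (by linarith) (by linarith)
    have := mul_le_mul (k a ha (by linarith)) (k b (by linarith) hb) (by norm_num)
      (by linarith [k a ha (by linarith)])
    have := mul_le_mul a2 a4 (by norm_num) (by linarith)
    unfold dd; push_cast; linarith
  have e : 33 / 2 * (b - a) ≤ ph 0 b - ph 0 a := by rw [ph_sub 0 a1 b1]; nlinarith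
  rw [mb_sub ha (by linarith)]
  refine ⟨?_, fun g => ?_, fun g => ?_, ?_⟩
  · rw [div_le_iff₀ (mul_pos (by linarith) (by linarith))]
    have : 16 ≤ (99 * a - 29) * (99 * b - 29) := by nlinarith
    nlinarith
  · rw [← mul_div_assoc, div_le_iff₀ (mul_pos (by linarith) (by linarith))]
    have : 100 ≤ (99 * a - 29) * (99 * b - 29) := by nlinarith
    nlinarith
  · refine (ph_lt 0 a1 (by norm_num [abs_lt]) g).trans ?_
    norm_num [ph]
  · have := (ps_mono 0).le_iff_le (a := 5) (b := ph 0 a)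
    rw [ps5, ps_ph 0 a1] at this
    exact this.1 ha

section
variable {Z : Set ℝ} (hi : ∀ g ∈ G, ∀ x ∈ Z, g x ∈ Z) (ho : ∀ j : ℤ, (2 * j + 1 : ℝ) ∈ Z)
include hi ho

omit ho in
lemma Gap.tr {x y : ℝ} (H : Gap Z x y) {g} (hg : g ∈ G) : Gap Z (g x) (g y) := by
  refine ⟨g.strictMono H.1, fun z a b c => H.2 (g⁻¹ z) ?_ ?_ (hi _ (G.inv_mem hg) _ c)⟩
  · rw [← iv g x]; exact (g⁻¹).strictMono a
  · rw [← iv g y]; exact (g⁻¹).strictMono b

omit hi ho in
lemma Gap.or {x y : ℝ} (H : Gap Z x y) {p : ℝ} (hp : p ∈ Z) : p ≤ x ∨ y ≤ p := by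
  by_contra hc
  push Not at hc
  exact H.2 p hc.1 hc.2 hp

lemma childgap {x y : ℝ} {n : ℤ} (H : Gap Z (x + 12 * n) (y + 12 * n)) (a : -1 ≤ x) (b : y ≤ 1) :
    ∃ k : ℤ, |x| < 1 ∧ |y| < 1 ∧ -5 ≤ ph 0 x - 10 * k ∧ ph 0 y - 10 * k ≤ 5 ∧
      Gap Z (ph 0 x - 10 * k + 12 * n) (ph 0 y - 10 * k + 12 * n) := by
  have xy : x < y := by linarith [H.1]
  have z1 : |(x + y) / 2| < 1 := abs_lt.2 ⟨by linarith, by linarith⟩
  have uhG : ∀ k : ℤ, u ^ k * h⁻¹ ∈ G := fun k => G.mul_mem (G.zpow_mem u_G k) (G.inv_mem h_G)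
  have pt : ∀ k : ℤ, ps 0 (-5 + 10 * k) + 12 * n ∈ Z := fun k => by
    have := hi _ (uhG k) _ (ho (-3 + 6 * n))
    push_cast at this
    rwa [show 2 * (-3 + 6 * (n:ℝ)) + 1 = -5 + 12 * n by ring, uh le_rfl (by norm_num)] at this
  obtain ⟨k, hk⟩ : ∃ k, k = ⌊(ph 0 ((x + y) / 2) + 5) / 10⌋ := ⟨_, rfl⟩
  have f1 := Int.floor_le ((ph 0 ((x + y) / 2) + 5) / 10)
  have f2 := Int.lt_floor_add_one ((ph 0 ((x + y) / 2) + 5) / 10)
  rw [← hk] at f1 f2
  have g1 := (ps_mono 0).monotone (show -5 + 10 * (k:ℝ) ≤ ph 0 ((x + y) / 2) by linarith)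
  have g2 := ps_mono 0 (show ph 0 ((x + y) / 2) < -5 + 10 * ((k + 1 : ℤ):ℝ) by push_cast; linarith)
  rw [ps_ph 0 z1] at g1 g2
  have x1 : ps 0 (-5 + 10 * k) ≤ x := by rcases H.or (pt k) with g | g <;> linarith
  have y1 : y ≤ ps 0 (-5 + 10 * ((k + 1 : ℤ):ℝ)) := by
    rcases H.or (pt (k + 1)) with g | g <;> linarith
  have xa : |x| < 1 := abs_lt.2 ⟨by linarith [(abs_lt.1 (ps_abs 0 (-5 + 10 * k))).1], by linarith⟩
  have ya : |y| < 1 :=
    abs_lt.2 ⟨by linarith, by linarith [(abs_lt.1 (ps_abs 0 (-5 + 10 * ((k + 1 : ℤ):ℝ)))).2]⟩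
  rw [← ps_ph 0 xa, (ps_mono 0).le_iff_le] at x1
  rw [← ps_ph 0 ya, (ps_mono 0).le_iff_le] at y1
  push_cast at y1
  have := ph_lt 0 xa ya xy
  refine ⟨k, xa, ya, by linarith, by linarith, ?_⟩
  have t := H.tr hi (G.inv_mem (uhG k))
  rwa [inv_eq (x := ph 0 x - 10 * k + 12 * n)
      (by rw [uh (by linarith) (by linarith), sub_add_cancel, ps_ph 0 xa]),
    inv_eq (x := ph 0 y - 10 * k + 12 * n)
      (by rw [uh (by linarith) (by linarith), sub_add_cancel, ps_ph 0 ya])] at t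

lemma stepV {x y : ℝ} (j : ℤ) (H : Gap Z x y) (a : 4 * (j:ℝ) - 1 ≤ x) (b : y ≤ 4 * j + 1) :
    ∃ x' y', Gap Z x' y' ∧ 4 * (y - x) ≤ y' - x' := by
  have t := H.tr hi (G.zpow_mem rr_G j)
  rw [rz, rz, show x + 8 * j = x - 4 * j + 12 * j by ring,
    show y + 8 * j = y - 4 * j + 12 * j by ring] at t
  obtain ⟨k, xa, ya, -, -, g⟩ := childgap hi ho t (by linarith) (by linarith)
  refine ⟨_, _, g, ?_⟩
  have := ph_sub 0 xa ya
  have := dd_ge 0 xa ya
  nlinarith [H.1]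

lemma stepD {x y : ℝ} (n : ℤ) (H : Gap Z x y) (a : 5 + 12 * (n:ℝ) ≤ x) (b : y ≤ 7 + 12 * n) :
    ∃ x' y', Gap Z x' y' ∧ 2 * (y - x) ≤ y' - x' := by
  have t := H.tr hi (G.inv_mem h_G)
  obtain ⟨x, rfl⟩ : ∃ z, x = h z := ⟨_, (vi h x).symm⟩
  obtain ⟨y, rfl⟩ : ∃ z, y = h z := ⟨_, (vi h y).symm⟩
  rw [iv, iv] at t
  have e := h_m3 (n + 1)
  rw [← h_3, h.le_iff_le] at a
  rw [show 7 + 12 * (n:ℝ) = -5 + 12 * ((n + 1 : ℤ) : ℝ) by push_cast; ring, ← e, h.le_iff_le] at b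
  have xy := t.1
  have p1 := ho (6 * n)
  have p2 := ho (6 * n + 5)
  push_cast at p1 p2 b
  rcases t.or p1 with g | g
  · rcases t.or p2 with g' | g'
    · obtain ⟨x, rfl⟩ : ∃ z, x = -z + 12 * ((n + 1 : ℤ) : ℝ) := ⟨12 * ((n + 1 : ℤ) : ℝ) - x, by ring⟩
      obtain ⟨y, rfl⟩ : ∃ z, y = -z + 12 * ((n + 1 : ℤ) : ℝ) := ⟨12 * ((n + 1 : ℤ) : ℝ) - y, by ring⟩
      have q : ((n + 1 : ℤ) : ℝ) = n + 1 := by push_cast; rfl
      obtain ⟨k, xa, ya, k1, k2, gg⟩ := childgap hi ho t (by linarith) (by linarith)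
      rw [ph_neg] at k1 k2
      rw [ph_neg, ph_neg] at gg
      obtain ⟨s1, s2, s3, s4⟩ := side (a := y) (b := x) (by linarith) (by linarith)
        (by linarith [(abs_lt.1 xa).1])
      rw [hL (by linarith) (by linarith), hL (by linarith) (by linarith)]
      rcases le_or_gt (2 / 5) y with c | c
      · exact ⟨_, _, gg, by linarith [s2 c]⟩
      · have k0 : (k:ℝ) ≤ -1 := by
          have : (k:ℝ) < 0 := by linarith [gg.1]
          exact_mod_cast Int.le_sub_one_of_lt (show k < 0 by exact_mod_cast this)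
        have p3 := ho (6 * (n + 1) + 1)
        push_cast at p3
        obtain ⟨x', y', g1, g2⟩ := stepV hi ho (3 * (n + 1) + 1) gg
          (by push_cast; rcases gg.or p3 with c' | c' <;> linarith [s3 c]) (by push_cast; linarith)
        exact ⟨_, _, g1, by linarith⟩
    · exact ⟨_, _, t, by linarith [h_lip n (by linarith) xy.le (show y ≤ 11 + 12 * n by linarith)]⟩
  · obtain ⟨x, rfl⟩ : ∃ z, x = z + 12 * (n:ℝ) := ⟨x - 12 * n, by ring⟩
    obtain ⟨y, rfl⟩ : ∃ z, y = z + 12 * (n:ℝ) := ⟨y - 12 * n, by ring⟩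
    obtain ⟨k, xa, ya, k1, k2, gg⟩ := childgap hi ho t (by linarith) (by linarith)
    obtain ⟨s1, s2, s3, s4⟩ := side (a := x) (b := y) (by linarith) (by linarith) (abs_lt.1 ya).2
    rw [hR (by linarith) (by linarith), hR (by linarith) (by linarith)]
    rcases le_or_gt (2 / 5) x with c | c
    · exact ⟨_, _, gg, by linarith [s2 c]⟩
    · have k0 : (1:ℝ) ≤ k := by
        have : (0:ℝ) < k := by linarith [gg.1]
        exact_mod_cast (show 0 < k by exact_mod_cast this)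
      have p3 := ho (6 * n - 2)
      push_cast at p3
      obtain ⟨x', y', g1, g2⟩ := stepV hi ho (3 * n - 1) gg (by push_cast; linarith)
        (by push_cast; rcases gg.or p3 with c' | c' <;> linarith [s3 c])
      exact ⟨_, _, g1, by linarith⟩

lemma dense (hc : IsClosed Z) (x : ℝ) : x ∈ Z := by
  have loc : ∀ x y, Gap Z x y → ∃ j : ℤ, 2 * (j:ℝ) - 1 ≤ x ∧ y ≤ 2 * j + 1 := fun x y H => by
    have f1 := Int.floor_le ((x + 1) / 2)
    have f2 := Int.lt_floor_add_one ((x + 1) / 2)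
    exact ⟨⌊(x + 1) / 2⌋, by linarith, by rcases H.or (ho ⌊(x + 1) / 2⌋) with g | g <;> linarith⟩
  have step : ∀ x y, Gap Z x y → ∃ x' y', Gap Z x' y' ∧ 2 * (y - x) ≤ y' - x' := fun x y H => by
    obtain ⟨j, a, b⟩ := loc x y H
    rcases Int.even_or_odd' j with ⟨k, rfl | rfl⟩
    · push_cast at a b
      obtain ⟨x', y', g1, g2⟩ := stepV hi ho k H (by linarith) (by linarith)
      exact ⟨_, _, g1, by linarith [H.1]⟩
    · push_cast at a b
      have t := H.tr hi (G.zpow_mem rr_G (k + 2))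
      rw [rz, rz] at t
      obtain ⟨x', y', g1, g2⟩ := stepD hi ho (k + 1) t (by push_cast; linarith) (by push_cast; linarith)
      exact ⟨_, _, g1, by linarith⟩
  by_contra hx
  obtain ⟨e, he, hb⟩ := Metric.isOpen_iff.1 hc.isOpen_compl x hx
  have all : ∀ n : ℕ, ∃ x' y', Gap Z x' y' ∧ 2 ^ n * e ≤ y' - x' := by
    intro n
    induction n with
    | zero => exact ⟨x, x + e, ⟨by linarith, fun z a b => hb (by
        rw [Metric.mem_ball, Real.dist_eq, abs_lt]; constructor <;> linarith)⟩, by simp⟩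
    | succ n ih =>
      obtain ⟨x', y', g1, g2⟩ := ih
      obtain ⟨x'', y'', g3, g4⟩ := step _ _ g1
      exact ⟨_, _, g3, by rw [pow_succ]; linarith⟩
  obtain ⟨n, hn⟩ := pow_unbounded_of_one_lt (2 / e) (one_lt_two (α := ℝ))
  obtain ⟨x', y', g1, g2⟩ := all n
  obtain ⟨j, a, b⟩ := loc _ _ g1
  rw [div_lt_iff₀ he] at hn
  linarith
end

end Pool.Agent.H.MP_5a4e9f_an
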