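import Pool.Agent.H.MP_5a4e9f_an.E

namespace Pool.Agent.H.MP_5a4e9f_an
open Set Filter Topology

lemma CEg {f g : ℝ ≃o ℝ} {s t : Set ℝ} (hf : CE f t) (hg : CE g s) (hst : MapsTo g s t) :
    CE (f * g : ℝ ≃o ℝ) s := hf.comp f.strictMono hg (g.strictMono.strictMonoOn s) hst

lemma CE_mb (k l : ℝ) {s : Set ℝ} (H : ∀ x ∈ s, 1 / 3 ≤ k * x + l) :
    CE (fun x => mb (k * x + l)) s := by
  intro a ha b hb c hc d hd _ _ _
  have a1 := H a ha
  have b1 := H b hb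
  have c1 := H c hc
  have d1 := H d hd
  beta_reduce
  rw [mb_sub a1 b1, mb_sub c1 d1, mb_sub b1 c1, mb_sub a1 d1]
  simp only [div_eq_mul_inv, mul_inv]
  generalize (99 * (k * a + l) - 29)⁻¹ = A
  generalize (99 * (k * b + l) - 29)⁻¹ = B
  generalize (99 * (k * c + l) - 29)⁻¹ = C
  generalize (99 * (k * d + l) - 29)⁻¹ = D
  apply le_of_eq
  ring

lemma mb_mem {x : ℝ} (a : 1 / 3 ≤ x) (b : x ≤ 1) : 5 ≤ mb x ∧ mb x ≤ 57 / 10 := by
  have a1 := h.monotone (show 1 / 3 + 12 * ((0:ℤ):ℝ) ≤ x + 12 * ((0:ℤ):ℝ) by linarith)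
  have b1 := h.monotone (show x + 12 * ((0:ℤ):ℝ) ≤ 1 + 12 * ((0:ℤ):ℝ) by linarith)
  rw [h_3, hR a b] at a1
  rw [h_1, hR a b] at b1
  exact ⟨by linarith, by linarith⟩

lemma CE_psa (n : ℕ) (c : ℝ) (s : Set ℝ) : CE (fun z => ps n (z + c)) s :=
  (CE_ps n).comp (ps_mono n) ((CE_aff 1 c s).congr fun x _ => by ring)
    (fun a _ b _ ab => by linarith) fun _ _ => trivial

lemma CEs {e : ℝ ≃o ℝ} (he : e ∈ Gc) {a b : ℝ} (H : CE e (Icc a b)) (i q : ℤ) {c d : ℝ}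
    (h1 : a ≤ c + 8 * i + 24 * q) (h2 : d + 8 * i + 24 * q ≤ b) :
    CE (e * rr ^ i : ℝ ≃o ℝ) (Icc c d) := by
  have := (H.comp e.strictMono (CE_aff 1 (8 * i + 24 * q) (Icc c d)) (fun a _ b _ ab => by linarith)
    fun x hx => ⟨by linarith [hx.1], by linarith [hx.2]⟩).post 1 (-(24 * q))
  refine this.congr fun x _ => ?_
  rw [ma, rz, one_mul, one_mul, ← add_assoc, gper he]; ring

def IV (f : ℝ ≃o ℝ) : Prop := CE f (Icc 11 13) ∧ CE (fun t => f (ps 0 t)) univ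
def DE (f : ℝ ≃o ℝ) : Prop := ∀ m : ℕ, CE (f * h ^ (m + 1) : ℝ ≃o ℝ) (Icc (1 / 3) 1) ∧
  CE (f * h ^ (m + 1) : ℝ ≃o ℝ) (Icc 1 5) ∧ CE (f * h ^ (m + 1) : ℝ ≃o ℝ) (Icc 9 11) ∧
  CE (f * h ^ (m + 1) : ℝ ≃o ℝ) (Icc 11 (35 / 3)) ∧
  CE (fun t => (f * h ^ (m + 1)) (ps 0 t + 8)) univ
def ID (f : ℝ ≃o ℝ) : Prop := CE f (Icc 17 19) ∧ DE f
def Inv (e : ℝ ≃o ℝ) (t : ℤ) : Prop := ∀ i : ℤ,
  ((t = 1 → ¬3 ∣ i) → IV (e * rr ^ i)) ∧ ((t = -5 → ¬3 ∣ i) → ID (e * rr ^ i))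

lemma CE.rr {f g : ℝ → ℝ} {s : Set ℝ} (hf : CE f s) (j : ℤ) (e : ∀ x, g x = (rr ^ j) (f x)) :
    CE g s := (hf.post 1 (8 * j)).congr fun x _ => by rw [e, rz, one_mul]

lemma IV_of {f : ℝ ≃o ℝ} (a : CE f (Icc 11 13)) (b : CE f (Icc (-1) 1)) : IV f :=
  ⟨a, b.comp f.strictMono (CE_ps 0) ((ps_mono 0).strictMonoOn _) fun t _ =>
    abs_le.1 (ps_abs 0 t).le⟩

lemma DE_of {f : ℝ ≃o ℝ} (a : CE f (Icc 5 7)) : DE f := by
  intro m
  have k0 := kp m
  have k2 := k1 m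
  have z : ∀ x : ℝ, x = x + 12 * ((0:ℤ):ℝ) := fun x => by simp
  have gen : ∀ (s : Set ℝ) (p : ℝ → ℝ), CE p s → (∀ x ∈ s, h x = p x ∧
      (5 ≤ p x ∧ p x ≤ 6 ∨ 6 + 9 / 50 ≤ p x ∧ p x ≤ 7)) → CE (f * h ^ (m + 1) : ℝ ≃o ℝ) s := by
    intro s p hp H
    have e : ∀ x ∈ s, (h ^ (m + 1)) x = ka ^ m * p x + (6 - 6 * ka ^ m) := fun x hx => by
      rw [pow_succ, ma, (H x hx).1, hpow1 ((H x hx).2.imp_left fun c => ⟨by linarith [c.1], c.2⟩)]
      ring
    refine CEg a ((hp.post _ _).congr e) fun x hx => ?_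
    rw [e x hx]
    rcases (H x hx).2 with c | c <;> constructor <;> nlinarith [c.1, c.2]
  refine ⟨gen _ _ (CE_mb 1 0 fun x hx => by linarith [hx.1]) fun x hx => ?_,
    gen _ _ (CE_aff (3 / 50) (6 - 18 / 50) _) fun x hx => ?_,
    gen _ _ (CE_aff (3 / 50) (6 - 18 / 50) _) fun x hx => ?_,
    gen _ _ ((CE_mb (-1) 12 fun x hx => by linarith [hx.2]).post (-1) 12) fun x hx => ?_, ?_⟩
  · rw [one_mul, add_zero]
    have := mb_mem hx.1 hx.2
    exact ⟨by rw [z x, hR hx.1 hx.2]; simp, Or.inl ⟨this.1, by linarith [this.2]⟩⟩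
  · refine ⟨?_, Or.inl ⟨by linarith [hx.1], by linarith [hx.2]⟩⟩
    rw [hA hx.1 (by linarith [hx.2]), (t0_id (Or.inl (by linarith [hx.2]))).1]; ring
  · refine ⟨?_, Or.inr ⟨by linarith [hx.1], by linarith [hx.2]⟩⟩
    rw [hA (by linarith [hx.1]) hx.2, (t0_id (Or.inr hx.1)).1]; ring
  · have b1 : 1 / 3 ≤ -1 * x + 12 := by linarith [hx.2]
    have b2 : -1 * x + 12 ≤ 1 := by linarith [hx.1]
    have := mb_mem b1 b2
    refine ⟨?_, Or.inr ⟨by linarith [this.2], by linarith [this.1]⟩⟩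
    have e := hL b1 b2 1
    rw [show -(-1 * x + 12) + 12 * ((1:ℤ):ℝ) = x by push_cast; ring] at e
    rw [e]; push_cast; ring
  · have k3 := kp (m + 1)
    have k4 := ksucc m
    refine (a.comp f.strictMono ((CE_ps (m + 1)).post (ka ^ (m + 1)) (6 + 2 * ka ^ (m + 1)))
      (fun s _ t _ st => by have := ps_mono (m + 1) st; beta_reduce; nlinarith)
      fun t _ => ?_).congr fun t _ => ?_
    · obtain ⟨b1, b2⟩ := abs_lt.1 (ps_abs (m + 1) t)
      constructor <;> nlinarith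
    · rw [ma, hpowV (ps_abs 0 t).le, wf_ps, add_zero]; congr 1; ring

lemma Inv_of {e : ℝ ≃o ℝ} {t : ℤ} (he : e ∈ Gc) (v0 : t ≠ 1 → IV e) (v1 : IV (e * rr ^ (1:ℤ)))
    (v2 : IV (e * rr ^ (-1:ℤ))) (d0 : t ≠ -5 → ID e) (d1 : ID (e * rr ^ (1:ℤ)))
    (d2 : ID (e * rr ^ (-1:ℤ))) : Inv e t := by
  have pv : ∀ f, ∀ j : ℤ, IV f → IV (rr ^ j * f) := fun f j H =>
    ⟨H.1.rr j fun _ => rfl, H.2.rr j fun _ => rfl⟩
  have pd : ∀ f, ∀ j : ℤ, ID f → ID (rr ^ j * f) := fun f j H =>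
    ⟨H.1.rr j fun _ => rfl, fun m => ⟨(H.2 m).1.rr j fun _ => rfl, (H.2 m).2.1.rr j fun _ => rfl,
      (H.2 m).2.2.1.rr j fun _ => rfl, (H.2 m).2.2.2.1.rr j fun _ => rfl,
      (H.2 m).2.2.2.2.rr j fun _ => rfl⟩⟩
  intro i
  have e1 : ∀ r : ℤ, 3 ∣ i - r → e * rr ^ i = rr ^ (i - r) * (e * rr ^ r) := fun r hr => by
    rw [← mul_assoc, cen hr he]; group
  obtain g | g | g : 3 ∣ i - 0 ∨ 3 ∣ i - 1 ∨ 3 ∣ i - -1 := by omega
  · rw [e1 0 g, zpow_zero, mul_one]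
    exact ⟨fun H => pv _ _ (v0 fun c => H c (by omega)), fun H => pd _ _ (d0 fun c => H c (by omega))⟩
  · rw [e1 _ g]; exact ⟨fun _ => pv _ _ v1, fun _ => pd _ _ d1⟩
  · rw [e1 _ g]; exact ⟨fun _ => pv _ _ v2, fun _ => pd _ _ d2⟩

lemma Inv_D {e : ℝ ≃o ℝ} {t : ℤ} (he : e ∈ Gc) (a : CE e (Icc (-5) 5)) (b : CE e (Icc 7 17))
    (d0 : t ≠ -5 → ID e) : Inv e t :=
  Inv_of he (fun _ => IV_of (b.mono (Icc_subset_Icc (by norm_num) (by norm_num)))
      (a.mono (Icc_subset_Icc (by norm_num) (by norm_num))))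
    (IV_of (CEs he a 1 (-1) (by norm_num) (by norm_num)) (CEs he b 1 0 (by norm_num) (by norm_num)))
    (IV_of (CEs he a (-1) 0 (by norm_num) (by norm_num)) (CEs he b (-1) 1 (by norm_num) (by norm_num)))
    d0
    ⟨CEs he a 1 (-1) (by norm_num) (by norm_num), DE_of (CEs he b 1 0 (by norm_num) (by norm_num))⟩
    ⟨CEs he b (-1) 0 (by norm_num) (by norm_num), DE_of (CEs he a (-1) 0 (by norm_num) (by norm_num))⟩

lemma CEu {f : ℝ ≃o ℝ} (k n : ℤ) (H : CE (fun t => f (ps 0 (t + (10 * k - 12 * n)) + 12 * n))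
    (Icc (-5 + 12 * n) (5 + 12 * n))) :
    CE (f * (u ^ k * h⁻¹) : ℝ ≃o ℝ) (Icc (-5 + 12 * n) (5 + 12 * n)) := by
  refine H.congr fun x hx => ?_
  have := uh (t := x - 12 * n) (by linarith [hx.1]) (by linarith [hx.2]) k n
  rw [sub_add_cancel] at this
  rw [ma, this]; congr 3; ring

lemma CEu' {f : ℝ ≃o ℝ} (k n : ℤ) {a b : ℝ} (H : CE f (Icc (a + 12 * n) (b + 12 * n)))
    (h1 : a ≤ ps 0 (-5 + 10 * k)) (h2 : ps 0 (5 + 10 * k) ≤ b) :
    CE (f * (u ^ k * h⁻¹) : ℝ ≃o ℝ) (Icc (-5 + 12 * n) (5 + 12 * n)) := by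
  refine CEu k n (H.comp f.strictMono
    (((CE_psa 0 (10 * k - 12 * n) _).post 1 (12 * n)).congr fun x _ => by rw [one_mul])
    (fun s _ t _ st => by
      have := ps_mono 0 (show s + (10 * k - 12 * n) < t + (10 * k - 12 * n) by linarith)
      beta_reduce; linarith) fun x hx => ?_)
  have b1 := (ps_mono 0).monotone (show -5 + 10 * (k:ℝ) ≤ x + (10 * k - 12 * n) by linarith [hx.1])
  have b2 := (ps_mono 0).monotone (show x + (10 * k - 12 * n) ≤ 5 + 10 * (k:ℝ) by linarith [hx.2])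
  exact ⟨by linarith, by linarith⟩

lemma Fr_inv {e t} (he : Fr e t) : Inv e t := by
  have id1 : ∀ s, CE (1 : ℝ ≃o ℝ) s := fun s => (CE_aff 1 0 s).congr fun x _ => by simp
  have n0 : ∀ f : ℝ → ℝ, CE f (Icc (-5 + 12 * ((0:ℤ):ℝ)) (5 + 12 * ((0:ℤ):ℝ))) → CE f (Icc (-5) 5) :=
    fun f H => by simpa using H
  have n1 : ∀ f : ℝ → ℝ, CE f (Icc (-5 + 12 * ((1:ℤ):ℝ)) (5 + 12 * ((1:ℤ):ℝ))) → CE f (Icc 7 17) :=
    fun f H => by norm_num at H; exact H
  induction he with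
  | root => exact Inv_D Gc.one_mem (id1 _) (id1 _) fun _ => ⟨id1 _, DE_of (id1 _)⟩
  | v e t i k he H ih =>
    obtain ⟨a, b⟩ := (ih i).1 H
    refine Inv_D (G_le (Fr_G (Fr.v e t i k he H))) (n0 _ (CEu k 0 ?_)) (n1 _ (CEu' k 1
      (a := -1) (b := 1) (by norm_num; exact a) (abs_lt.1 (ps_abs _ _)).1.le
      (abs_lt.1 (ps_abs _ _)).2.le)) (by simp)
    refine (CE.comp (f := fun t => (e * rr ^ i) (ps 0 t)) b
      ((e * rr ^ i).strictMono.comp (ps_mono 0)) (CE_aff 1 (10 * k) _)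
      (fun a _ b _ ab => by linarith) fun _ _ => trivial).congr fun x _ => by simp
  | d e t i k he H hk ih =>
    obtain ⟨a, b⟩ := (ih i).2 H
    have fm : e * rr ^ i ∈ Gc := Gc.mul_mem (G_le (Fr_G he)) (Gc.zpow_mem rr_mem i)
    have b0 := b 0
    rw [zero_add, pow_one] at b0
    have ee : e * rr ^ i * (h * u ^ k * h⁻¹) = e * rr ^ i * h * (u ^ k * h⁻¹) := by group
    refine Inv_D (G_le (Fr_G (Fr.d e t i k he H hk))) (n0 _ ?_) (n1 _ ?_) (by simp) <;> rw [ee]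
    all_goals generalize e * rr ^ i = f at *
    all_goals rcases lt_or_gt_of_ne hk with g | g
    · have g' : (k:ℝ) ≤ -1 := by exact_mod_cast Int.le_sub_one_of_lt g
      refine CEu' k 0 (a := -1) (b := -(1 / 3)) ?_ (abs_lt.1 (ps_abs _ _)).1.le
        (ps5' ▸ (ps_mono 0).monotone (by linarith))
      have a' := CEs fm a 0 1 (c := -7) (d := -5) (by norm_num) (by norm_num)
      rw [zpow_zero, mul_one] at a'
      have e : ∀ x ∈ Icc (-1 + 12 * ((0:ℤ):ℝ)) (-(1 / 3) + 12 * ((0:ℤ):ℝ)),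
          h x = -1 * mb (-1 * x + 0) + 0 ∧ 1 / 3 ≤ -1 * x + 0 ∧ -1 * x + 0 ≤ 1 := fun x hx => by
        simp only [Int.cast_zero, mul_zero, add_zero, mem_Icc] at hx
        have := hL (x := -x) (by linarith [hx.2]) (by linarith [hx.1]) 0
        exact ⟨by simpa using this, by linarith [hx.2], by linarith [hx.1]⟩
      refine CEg a' (((CE_mb (-1) 0 fun x hx => (e x hx).2.1).post (-1) 0).congr
        fun x hx => (e x hx).1) fun x hx => ?_
      have := mb_mem (e x hx).2.1 (e x hx).2.2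
      rw [(e x hx).1]
      exact ⟨by linarith [this.2], by linarith [this.1]⟩
    · have g' : (1:ℝ) ≤ k := by exact_mod_cast g
      exact CEu' k 0 (a := 1 / 3) (b := 1) (by simpa using b0.1)
        (ps5 ▸ (ps_mono 0).monotone (by linarith)) (abs_lt.1 (ps_abs _ _)).2.le
    · have g' : (k:ℝ) ≤ -1 := by exact_mod_cast Int.le_sub_one_of_lt g
      exact CEu' k 1 (a := -1) (b := -(1 / 3)) (by norm_num; exact b0.2.2.2.1)
        (abs_lt.1 (ps_abs _ _)).1.le (ps5' ▸ (ps_mono 0).monotone (by linarith))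
    · have g' : (1:ℝ) ≤ k := by exact_mod_cast g
      refine CEu' k 1 (a := 1 / 3) (b := 1) ?_
        (ps5 ▸ (ps_mono 0).monotone (by linarith)) (abs_lt.1 (ps_abs _ _)).2.le
      have e : ∀ x ∈ Icc (1 / 3 + 12 * ((1:ℤ):ℝ)) (1 + 12 * ((1:ℤ):ℝ)),
          h x = 1 * mb (1 * x + -12) + 12 ∧ 1 / 3 ≤ 1 * x + -12 ∧ 1 * x + -12 ≤ 1 := fun x hx => by
        simp only [Int.cast_one, mul_one, mem_Icc] at hx
        have := hR (x := 1 * x + -12) (by linarith [hx.1]) (by linarith [hx.2]) 1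
        exact ⟨by simpa using this, by linarith [hx.1], by linarith [hx.2]⟩
      refine CEg a (((CE_mb 1 (-12) fun x hx => (e x hx).2.1).post 1 12).congr
        fun x hx => (e x hx).1) fun x hx => ?_
      have := mb_mem (e x hx).2.1 (e x hx).2.2
      rw [(e x hx).1]
      exact ⟨by linarith [this.1], by linarith [this.2]⟩
  | p e t i he H ih =>
    obtain ⟨a, b⟩ := (ih i).2 H
    have em := G_le (Fr_G (Fr.p e t i he H))
    have b0 := b 0
    rw [zero_add, pow_one] at b0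
    generalize e * rr ^ i = f at *
    have c : CE (f * h : ℝ ≃o ℝ) (Icc 13 23) := by
      refine CEg a ((CE_aff (3 / 50) (18 - 54 / 50) _).congr fun x hx => ?_) fun x hx => ?_
      · rw [hB hx.1 hx.2]; ring
      · rw [hB hx.1 hx.2]; exact ⟨by linarith [hx.1], by linarith [hx.2]⟩
    refine Inv_of em (by simp) ⟨CEs em c 1 0 (by norm_num) (by norm_num), ?_⟩
      (IV_of (CEs em b0.2.1 (-1) 0 (by norm_num) (by norm_num)) (CEs em c (-1) 1 (by norm_num) (by norm_num)))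
      (fun _ => ⟨c.mono (Icc_subset_Icc (by norm_num) (by norm_num)), fun m => ?_⟩)
      ⟨CEs em b0.2.1 1 (-1) (by norm_num) (by norm_num), DE_of (CEs em c 1 0 (by norm_num) (by norm_num))⟩
      ⟨CEs em b0.2.2.1 (-1) 0 (by norm_num) (by norm_num),
        DE_of (CEs em c (-1) 1 (by norm_num) (by norm_num))⟩
    · refine b0.2.2.2.2.congr fun x _ => ?_
      rw [ma (f * h), rz]; simp
    · rw [mul_assoc, ← pow_succ']; exact b (m + 1)

lemma shift0 {r f : ℝ ≃o ℝ} (l1 : ∀ x y, x ≤ y → 2 / 3 * (y - x) ≤ r y - r x)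
    (l2 : ∀ x y, x ≤ y → r y - r x ≤ 4 / 3 * (y - x)) (hq : cj f⁻¹ r ∈ R) (c : CE f (Icc 11 13))
    {m : ℤ} (hm : h * u ^ (-(0 + m)) * cj f⁻¹ r * u ^ (0:ℤ) * h⁻¹ ∈ R) : m = 0 := by
  have e : ∀ x, r (f x) = f (cj f⁻¹ r x) := fun x => by rw [cj, inv_inv, ma, ma, vi]
  have a1 := R0 hq 5
  have a2 := R0 hq 6
  norm_num at a1 a2
  have k : ∀ j : ℤ, ∀ t : ℝ, -5 ≤ t → t ≤ 5 → 2 * j + 1 = t + 12 * ((1:ℤ):ℝ) →
      cj f⁻¹ r (ps 0 t + 12) = ps 0 (t + 10 * m) + 12 := fun j t t1 t2 t3 => by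
    have := R0 hm j
    rw [t3, ma, ma, ma, ma, hi t1 t2, zpow_zero, RelIso.one_apply, zero_add, zpow_neg] at this
    have b := inv_eq this
    have b' := inv_eq b.symm
    rw [inv_inv, hi t1 t2, uz] at b'
    simpa using b'.symm
  have k1 := k 3 (-5) le_rfl (by norm_num) (by norm_num)
  have k2 := k 8 5 (by norm_num) le_rfl (by norm_num)
  rw [ps5'] at k1
  rw [ps5] at k2
  have cc := c 11 (by norm_num) (-(1 / 3) + 12) (by norm_num) (1 / 3 + 12) (by norm_num) 13 (by norm_num)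
    (by norm_num) (by norm_num) (by norm_num)
  have m1 : f 11 < f (-(1 / 3) + 12) := f.strictMono (by norm_num)
  have m2 : f (-(1 / 3) + 12) < f (1 / 3 + 12) := f.strictMono (by norm_num)
  have m3 : f (1 / 3 + 12) < f 13 := f.strictMono (by norm_num)
  have r1 := e 11
  have r2 := e 13
  have r3 := e (-(1 / 3) + 12)
  have r4 := e (1 / 3 + 12)
  rw [a1] at r1
  rw [a2] at r2
  rw [k1] at r3
  rw [k2] at r4
  have fin : ∀ L C R : ℝ, 0 < L → 0 < C → 0 < R → C ≤ L / 2 → C ≤ R / 2 →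
      C * (L + C + R) < 3 * (L * R) := fun L C R _ _ _ _ _ => by nlinarith
  by_contra hne
  rcases lt_or_gt_of_ne hne with g | g
  · have g' : (m:ℝ) ≤ -1 := by exact_mod_cast Int.le_sub_one_of_lt g
    have := f.monotone (show ps 0 (5 + 10 * m) + 12 ≤ -(1 / 3) + 12 by
      linarith [ps5', (ps_mono 0).monotone (show 5 + 10 * (m:ℝ) ≤ -5 by linarith)])
    have b1 := l1 _ _ (m1.trans m2).le
    have b2 := l2 _ _ m3.le
    rw [r1, r4] at b1
    rw [r2, r4] at b2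
    have := fin _ _ _ (sub_pos.2 m1) (sub_pos.2 m2) (sub_pos.2 m3) (by linarith) (by linarith)
    nlinarith
  · have g' : (1:ℝ) ≤ m := by exact_mod_cast g
    have := f.monotone (show 1 / 3 + 12 ≤ ps 0 (-5 + 10 * m) + 12 by
      linarith [ps5, (ps_mono 0).monotone (show 5 ≤ -5 + 10 * (m:ℝ) by linarith)])
    have b1 := l1 _ _ (m2.trans m3).le
    have b2 := l2 _ _ m1.le
    rw [r2, r3] at b1
    rw [r1, r3] at b2
    have := fin _ _ _ (sub_pos.2 m1) (sub_pos.2 m2) (sub_pos.2 m3) (by linarith) (by linarith)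
    nlinarith

lemma disc {r} (hg : r ∈ G) (H : ∀ x, |r x - x| < 1) (H' : ∀ x, |deriv r x - 1| ≤ 1 / 3) : r = 1 := by
  have hr := top hg H
  have df := (G_le hg).1.1.differentiable one_ne_zero
  have l1 : ∀ x y, x ≤ y → 2 / 3 * (y - x) ≤ r y - r x := fun x y xy =>
    mul_sub_le_image_sub_of_le_deriv df (fun x => by linarith [(abs_le.1 (H' x)).1]) xy
  have l2 : ∀ x y, x ≤ y → r y - r x ≤ 4 / 3 * (y - x) := fun x y xy =>
    image_sub_le_mul_sub_of_deriv_le df (fun x => by linarith [(abs_le.1 (H' x)).2]) xy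
  have rot : ∀ e, cj e⁻¹ r ∈ R → ∀ i : ℤ, cj (e * rr ^ i)⁻¹ r ∈ R := fun e he i => by
    convert Rr (-i) he using 1; unfold cj; group
  have all : ∀ e t, Fr e t → cj e⁻¹ r ∈ R := by
    intro e t he
    induction he with
    | root => simpa [cj] using hr
    | v e t i k he H ih =>
      obtain ⟨m, hm⟩ := Ru (rot e ih i)
      obtain rfl := shift0 l1 l2 (rot e ih i) ((Fr_inv he i).1 H).1 (hm 0)
      convert hm k using 1; unfold cj; group
    | d e t i k he H hk ih =>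
      have q := rot e ih i
      obtain ⟨m, hm⟩ := Ru (Rh q)
      obtain rfl : m = 0 := by
        have a := R0 (hm 0) 2
        have b := R0 q 2
        have c := hi (t := 5) (by norm_num) le_rfl 0
        have d := uz (-m) 0 5
        norm_num at a b c d
        rw [cj, ma, ma, inv_inv, vi, b, c, d] at a
        have := inv_eq a
        rw [c] at this
        have := (ps_mono 0).injective this
        exact_mod_cast (show (m:ℝ) = 0 by linarith)
      convert hm k using 1; unfold cj; group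
    | p e t i he H ih => convert Rh (rot e ih i) using 1; unfold cj; group
  ext x
  have := dense (Z := {x | ∀ g ∈ G, r (g x) = g x}) (fun g hg x hx g' hg' => hx (g' * g) (G.mul_mem hg' hg))
    (fun j g hg => ?_) ?_ x 1 G.one_mem
  · exact this
  · obtain ⟨e, t, i, r', hr', he, rfl⟩ := decomp hg
    have := R0 (rot e (all e t he) i) j
    rw [cj, inv_inv, ma, ma] at this
    rw [ma, R0 hr', ← vi (e * rr ^ i) (r _), this]
  · simp only [setOf_forall]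
    exact isClosed_iInter fun g => isClosed_iInter fun _ =>
      isClosed_eq (r.continuous.comp g.continuous) g.continuous

end Pool.Agent.H.MP_5a4e9f_an
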