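import Pool.Agent.H.MP_5a4e9f_an.F

namespace Pool.Agent.H.MP_5a4e9f_an
open Set Filter Topology

lemma kt : Tendsto (fun n : ℕ => ka ^ n) atTop (𝓝 0) :=
  tendsto_pow_atTop_nhds_zero_of_lt_one ka_pos.le (by norm_num [ka])

lemma klim (g : ℝ ≃o ℝ) (a b : ℝ) : Tendsto (fun n : ℕ => g (a + ka ^ n * b)) atTop (𝓝 (g a)) := by
  refine (g.continuous.tendsto a).comp ?_
  simpa using (kt.mul_const b).const_add a

lemma hn9 (n : ℕ) : (h ^ n) 9 = 6 + ka ^ n * 3 := by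
  have := hpowV (z := 1) (by simp) n
  rw [wf_out _ _ _ (by simp)] at this
  norm_num at this ⊢; exact this

lemma hn12 (n : ℕ) {x : ℝ} (l : ℤ) (H : (h ^ n) x = 6 + ka ^ n * (x - 6)) (a : 1 ≤ x) (b : x ≤ 11) :
    (h ^ n) (x + 12 * l) = 6 + ka ^ n * (x - 6) + 12 * l := by
  have hm := Gc.pow_mem h_mem n
  rcases Int.even_or_odd' l with ⟨k, rfl | rfl⟩
  · have := gper hm k x
    push_cast
    rw [show x + 12 * (2 * k) = x + 24 * k by ring, this, H]; ring
  · have := gper hm k (x + 12)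
    push_cast
    rw [show x + 12 * (2 * k + 1) = x + 12 + 24 * k by ring, this,
      hpowB (by linarith) (by linarith)]; ring

lemma anti6 {g} (hg : g ∈ G) : 10 ≤ g 18 - g 6 ∧ g 18 - g 6 ≤ 14 := by
  have t := (klim g 18 1).sub (klim g 6 1)
  have e : ∀ n : ℕ, 10 ≤ g (18 + ka ^ n * 1) - g (6 + ka ^ n * 1) ∧
      g (18 + ka ^ n * 1) - g (6 + ka ^ n * 1) ≤ 14 := fun n => by
    have := anti (G.mul_mem hg (G.pow_mem h_G n))
    rw [ma, ma, hpowB (by norm_num) (by norm_num), hpow1 (Or.inr (by norm_num))] at this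
    norm_num at this ⊢; exact this
  exact ⟨ge_of_tendsto' t fun n => (e n).1, le_of_tendsto' t fun n => (e n).2⟩

lemma np {x y : ℝ} (l : ℤ) (H : 6 + 12 * (l:ℝ) < x ∧ y ≤ 18 + 12 * l ∨ 6 + 12 * (l:ℝ) ≤ x ∧ y < 18 + 12 * l) :
    ∃ g ∈ G, g y - g x < 10 := by
  have f6 : ∀ n : ℕ, ∀ l : ℤ, (h ^ n) (6 + 12 * l) = 6 + 12 * l := fun n l => by
    simpa using hn12 n l (hpow1 (x := 6) (Or.inl (by norm_num)) n) (by norm_num) (by norm_num)
  have mv : ∀ (g : ℝ ≃o ℝ) a b, g a ≤ b → a ≤ g⁻¹ b := fun g a b e => by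
    rw [← iv g a]; exact (g⁻¹).monotone e
  have mv' : ∀ (g : ℝ ≃o ℝ) a b, b ≤ g a → g⁻¹ b ≤ a := fun g a b e => by
    rw [← iv g a]; exact (g⁻¹).monotone e
  rcases H with ⟨a, b⟩ | ⟨a, b⟩
  · obtain ⟨n, hn⟩ := (kt.eventually (gt_mem_nhds (show 0 < (x - 6 - 12 * l) / 3 by linarith))).exists
    have e1 := hn12 n l (by rw [hn9]; norm_num) (by norm_num) (by norm_num)
    have e2 := f6 n (l + 1)
    have b1 := mv (h ^ n) _ x (by rw [e1]; linarith)
    have b2 := mv' (h ^ n) _ y (by rw [e2]; push_cast; linarith)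
    exact ⟨_, G.inv_mem (G.pow_mem h_G n), by push_cast at b2; linarith⟩
  · obtain ⟨n, hn⟩ := (kt.eventually (gt_mem_nhds (show 0 < (18 + 12 * l - y) / 3 by linarith))).exists
    have e1 := hn12 n (l + 1) (hpow1 (x := 3) (Or.inl (by norm_num)) n) (by norm_num) (by norm_num)
    have e2 := f6 n l
    have b1 := mv (h ^ n) _ x (by rw [e2]; linarith)
    have b2 := mv' (h ^ n) _ y (by rw [e1]; push_cast; linarith)
    exact ⟨_, G.inv_mem (G.pow_mem h_G n), by push_cast at b2; linarith⟩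

lemma orb {a b : ℝ} (ab : a < b) : ∃ g ∈ G, g 6 ∈ Ioo a b := by
  obtain ⟨Z, hZ⟩ : ∃ Z, Z = closure {y | ∃ g ∈ G, g 6 = y} := ⟨_, rfl⟩
  have hc : IsClosed Z := hZ ▸ isClosed_closure
  have hi' : ∀ g ∈ G, ∀ x ∈ Z, g x ∈ Z := fun g hg x hx => by
    rw [hZ] at hx ⊢
    refine map_mem_closure g.continuous hx ?_
    rintro _ ⟨g', hg', rfl⟩
    exact ⟨g * g', G.mul_mem hg hg', rfl⟩
  have z6 : (6:ℝ) ∈ Z := hZ ▸ subset_closure ⟨1, G.one_mem, rfl⟩
  have sh : ∀ x ∈ Z, ∀ i : ℤ, x + 8 * i ∈ Z := fun x hx i => by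
    rw [← rz]; exact hi' _ (G.zpow_mem rr_G i) _ hx
  have z18 : (18:ℝ) ∈ Z := by
    refine hc.mem_of_tendsto (klim 1 18 (-4)) (Eventually.of_forall fun n => ?_)
    have := hi' _ (G.pow_mem h_G n) _ (sh 6 z6 1)
    rw [hpowB (by norm_num) (by norm_num)] at this
    norm_num at this ⊢
    rwa [← sub_eq_add_neg]
  have z2 : ∀ j : ℤ, (2 + 4 * j : ℝ) ∈ Z := fun j => by
    rcases Int.even_or_odd' j with ⟨k, rfl | rfl⟩
    · convert sh 18 z18 (k - 2) using 1; push_cast; ring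
    · convert sh 6 z6 k using 1; push_cast; ring
  have lim : Tendsto (fun k : ℕ => ps 0 (2 + 10 * k)) atTop (𝓝 1) := by
    refine tendsto_order.2 ⟨fun y hy => ?_, fun y hy => Eventually.of_forall fun k => by
      linarith [(abs_lt.1 (ps_abs 0 (2 + 10 * k))).2]⟩
    have ya : |max y 0| < 1 := abs_lt.2 ⟨by linarith [le_max_right y 0], max_lt hy one_pos⟩
    filter_upwards [tendsto_natCast_atTop_atTop.eventually_ge_atTop |ph 0 (max y 0)|] with k hk
    have := ps_mono 0 (show ph 0 (max y 0) < 2 + 10 * (k:ℝ) by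
      linarith [le_abs_self (ph 0 (max y 0)), abs_nonneg (ph 0 (max y 0))])
    rw [ps_ph 0 ya] at this
    linarith [le_max_left y 0]
  have uhG : ∀ k : ℤ, u ^ k * h⁻¹ ∈ G := fun k => G.mul_mem (G.zpow_mem u_G k) (G.inv_mem h_G)
  have p1 : ∀ n : ℤ, (1 + 12 * n : ℝ) ∈ Z := fun n => by
    refine hc.mem_of_tendsto (lim.add_const _) (Eventually.of_forall fun k => ?_)
    have := hi' _ (uhG k) _ (z2 (3 * n))
    push_cast at this
    rwa [show 2 + 4 * (3 * (n:ℝ)) = 2 + 12 * n by ring, uh (by norm_num) (by norm_num)] at this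
  have p2 : ∀ n : ℤ, (-1 + 12 * n : ℝ) ∈ Z := fun n => by
    refine hc.mem_of_tendsto (lim.neg.add_const _) (Eventually.of_forall fun k => ?_)
    have := hi' _ (uhG (-k)) _ (z2 (3 * n - 1))
    push_cast at this
    rw [show 2 + 4 * (3 * (n:ℝ) - 1) = -2 + 12 * n by ring, uh (by norm_num) (by norm_num)] at this
    rw [← ps_neg]
    convert this using 3; push_cast; ring
  have := dense hi' (fun j => ?_) hc ((a + b) / 2)
  · rw [hZ] at this
    obtain ⟨_, c, g, hg, rfl⟩ := mem_closure_iff.1 this (Ioo a b) isOpen_Ioo ⟨by linarith, by linarith⟩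
    exact ⟨g, hg, c⟩
  · rcases Int.even_or_odd' j with ⟨k, rfl | rfl⟩
    · convert sh _ (p1 k) (-k) using 1; push_cast; ring
    · convert sh _ (p2 (k + 1)) (-k - 1) using 1; push_cast; ring

lemma sep {a b : ℝ} (ab : a < b) (ba : b < a + 24) :
    ∃ g ∈ G, g 6 ∈ Ioo a b ∧ g 18 ∈ Ioo b (a + 24) := by
  by_contra hc
  push Not at hc
  obtain ⟨g, hg, g1⟩ := orb ab
  obtain ⟨f, hf, f1⟩ := orb ba
  have s : ∀ g ∈ G, g 18 = g (-6) + 24 := fun g hg => by rw [← (G_le hg).2]; norm_num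
  have c1 : g 18 ≤ b ∨ a ≤ g (-6) := by
    have := hc g hg g1
    rw [mem_Ioo, not_and_or, not_lt, not_lt] at this
    exact this.imp_right fun c => by linarith [s g hg]
  have c2 : f (-6) ≤ a ∨ b ≤ f (-6) := by
    by_contra c
    push Not at c
    obtain ⟨n, n1, n2⟩ := (((klim f (-6) (-4)).eventually (Ioo_mem_nhds c.1 c.2)).and
      ((klim f 6 (-4)).eventually (Ioo_mem_nhds f1.1 f1.2))).exists
    have e1 := hn12 n (-1) (hpow1 (x := 2) (Or.inl (by norm_num)) n) (by norm_num) (by norm_num)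
    have e2 := hpow1 (x := 2) (Or.inl (by norm_num)) n
    refine hc (f * h ^ n * rr ^ (-2:ℤ)) (G.mul_mem (G.mul_mem hf (G.pow_mem h_G n))
      (G.zpow_mem rr_G _)) ?_ ?_
    · rw [ma, ma, rz, show (6:ℝ) + 8 * ((-2:ℤ):ℝ) = 2 + 12 * ((-1:ℤ):ℝ) by norm_num, e1]
      rwa [show 6 + ka ^ n * (2 - 6) + 12 * ((-1:ℤ):ℝ) = -6 + ka ^ n * -4 by push_cast; ring]
    · rw [ma, ma, rz, show (18:ℝ) + 8 * ((-2:ℤ):ℝ) = 2 by norm_num, e2]
      rwa [show (2:ℝ) - 6 = -4 by norm_num]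
  have key : ∀ x y, a ≤ x → y ≤ b → (a < x ∨ y < b) → ∃ k ∈ G, k y - k x < 10 := by
    intro x y x1 y1 _
    have m1 : ∀ p q, f p ≤ q → p ≤ f⁻¹ q := fun p q e => by rw [← iv f p]; exact (f⁻¹).monotone e
    have m2 : ∀ p q, f p < q → p < f⁻¹ q := fun p q e => by rw [← iv f p]; exact (f⁻¹).strictMono e
    have m3 : ∀ p q, q ≤ f p → f⁻¹ q ≤ p := fun p q e => by rw [← iv f p]; exact (f⁻¹).monotone e
    have m4 : ∀ p q, q < f p → f⁻¹ q < p := fun p q e => by rw [← iv f p]; exact (f⁻¹).strictMono e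
    have e : f 6 = f (-18) + 24 := by rw [← (G_le hf).2]; norm_num
    obtain ⟨k, hk, c⟩ : ∃ k ∈ G, k (f⁻¹ y) - k (f⁻¹ x) < 10 := by
      rcases c2 with c | c
      · refine np (-1) (Or.inr ⟨?_, ?_⟩)
        · linarith [m1 _ _ (c.trans x1), show ((-1:ℤ):ℝ) = -1 by norm_num]
        · linarith [m4 _ _ (y1.trans_lt f1.1), show ((-1:ℤ):ℝ) = -1 by norm_num]
      · refine np (-2) (Or.inl ⟨?_, ?_⟩)
        · linarith [m2 (-18) x (by linarith [f1.2]), show ((-2:ℤ):ℝ) = -2 by norm_num]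
        · linarith [m3 _ _ (y1.trans c), show ((-2:ℤ):ℝ) = -2 by norm_num]
    exact ⟨k * f⁻¹, G.mul_mem hk (G.inv_mem hf), c⟩
  rcases c1 with c | c
  · obtain ⟨k, hk, d⟩ := key _ _ g1.1.le c (Or.inl g1.1)
    linarith [(anti6 (G.mul_mem hk hg)).1, ma k g 18, ma k g 6]
  · obtain ⟨k, hk, d⟩ := key _ _ c g1.2.le (Or.inr g1.2)
    linarith [(anti6 (G.mul_mem hk hg)).2, ma k g (-6), ma k g 6, s _ (G.mul_mem hk hg)]

lemma w_eq (n : ℕ) {x : ℝ} (a : -6 + ka ^ n * 3 < x) (b : x < 18) :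
    cj (h ^ n * rr) u x = pl n n 10 x := by
  have k0 := kp n
  obtain ⟨z, rfl⟩ : ∃ z, x = (h ^ n * rr) z := ⟨_, (vi _ x).symm⟩
  have r1 : ∀ z, (h ^ n * rr) z = (h ^ n) (z + 8) := fun _ => rfl
  have e1 := hn12 n (-1) (by rw [hn9]; norm_num) (by norm_num) (by norm_num)
  have e2 := hpowB (x := 18) (by norm_num) (by norm_num) n
  rw [r1] at a b
  have a' : 9 + 12 * ((-1:ℤ):ℝ) < z + 8 := (h ^ n).lt_iff_lt.1 (by rw [e1]; push_cast; linarith)
  have b' : z + 8 < 18 := (h ^ n).lt_iff_lt.1 (by rw [e2]; linarith)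
  push_cast at a'
  rw [cj, ma, ma, iv, r1, r1]
  rcases le_total |z| 1 with g | g
  · have := u_eq (x := z) (by linarith [(abs_le.1 g).1]) (by linarith [(abs_le.1 g).2]) 0
    simp only [Int.cast_zero, mul_zero, add_zero] at this
    rw [this, hpowV (wf_abs _ _ _ g), hpowV g, pl, wf_comp,
      show (6 + ka ^ n * (2 + wf 0 n 0 z) - 6) / ka ^ n - 2 = wf 0 n 0 z by field_simp; ring, wf_comp]
    norm_num
  · rcases le_abs.1 g with g | g
    · have := u_fix g (by linarith) 0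
      simp only [Int.cast_zero, mul_zero, add_zero] at this
      have c := (h ^ n).monotone (show 9 ≤ z + 8 by linarith)
      rw [hn9] at c
      rw [this, pl_out _ _ fun d => by linarith [d.2]]
    · have := u_fix (x := z + 12) (by linarith) (by linarith) (-1)
      norm_num at this
      have c := (h ^ n).monotone (show z + 8 ≤ 7 by linarith)
      rw [hpow1 (x := 7) (Or.inr (by norm_num))] at c
      rw [this, pl_out _ _ fun d => by linarith [d.1]]

lemma bad {a b : ℝ} (ab : a < b) (ba : b < a + 24) : ∃ g : ℕ → ℝ ≃o ℝ, (∀ n, g n ∈ G) ∧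
    (∀ ε > 0, ∀ᶠ n in atTop, ∀ x ∈ Icc a b, |g n x - x| < ε ∧ |deriv (g n) x - 1| < ε) ∧
    ∀ n, ∃ x ∈ Ioo a b, g n x ∈ Ioo a b ∧ g n x ≠ x := by
  obtain ⟨e, he, ⟨e1, e2⟩, e3, e4⟩ := sep ab ba
  have ec := G_le he
  have s : e 18 = e (-6) + 24 := by rw [← ec.2]; norm_num
  obtain ⟨N, hN⟩ := eventually_atTop.1 (((klim e (-6) 3).eventually
    (gt_mem_nhds (show e (-6) < a by linarith))).and ((klim e 6 3).eventually (gt_mem_nhds e2)))
  have wG : ∀ n : ℕ, cj (h ^ n * rr) u ∈ G := fun n =>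
    cj_mem (G.mul_mem (G.pow_mem h_G n) rr_G) u_G
  have reg : ∀ n z, a ≤ e z → e z ≤ b → -6 + ka ^ (n + N) * 3 < z ∧ z < 18 := fun n z z1 z2 =>
    ⟨e.lt_iff_lt.1 ((hN _ (Nat.le_add_left N n)).1.trans_le z1), e.lt_iff_lt.1 (z2.trans_lt e3)⟩
  have ap : ∀ w z, cj e w (e z) = e (w z) := fun w z => by rw [cj, ma, ma, iv]
  refine ⟨fun n => cj e (cj (h ^ (n + N) * rr) u), fun n => cj_mem he (wG _), fun ε hε => ?_,
    fun n => ?_⟩
  · have d6 := ec.1.2 6
    obtain ⟨η, η0, η1, η2⟩ : ∃ η : ℝ, 0 < η ∧ η ≤ 1 ∧ 4 * η ≤ ε :=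
      ⟨min 1 (ε / 4), by positivity, min_le_left _ _, by linarith [min_le_right 1 (ε / 4)]⟩
    have c1 : ContinuousAt (fun p : ℝ × ℝ => (e p.1 - e p.2, deriv e p.1 / deriv e p.2)) (6, 6) := by
      have := e.continuous
      have := ec.1.dc
      fun_prop (disch := exact d6.ne')
    obtain ⟨δ, δ0, hδ⟩ := Metric.continuousAt_iff.1 c1 η η0
    have t1 := (tendsto_add_atTop_nat N).eventually (wd_small 10 0 η0)
    have t2 := (tendsto_add_atTop_nat N).eventually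
      (kt.eventually (gt_mem_nhds (show 0 < δ / 3 by linarith)))
    filter_upwards [t1, t2] with n h1 h2 x hx
    obtain ⟨z, rfl⟩ : ∃ z, x = e z := ⟨_, (vi e x).symm⟩
    obtain ⟨z1, z2⟩ := reg n z hx.1 hx.2
    have dw : HasDerivAt (cj (h ^ (n + N) * rr) u) _ z :=
      (pl_der (n + N) (n + N) 10 z).congr_of_eventuallyEq
        (Eventually.mono (Ioo_mem_nhds z1 z2) fun y hy => w_eq _ hy.1 hy.2)
    have di : HasDerivAt (e⁻¹ : ℝ ≃o ℝ) (deriv e z)⁻¹ (e z) :=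
      HasDerivAt.of_local_left_inverse (e⁻¹).continuous.continuousAt (by rw [iv]; exact ec.1.der z)
        (ec.1.2 z).ne' (Eventually.of_forall (vi e))
    have dg := (ec.1.der _).comp (e z) (HasDerivAt.comp (e z) (by rw [iv]; exact dw) di)
    have dg' : deriv (cj e (cj (h ^ (n + N) * rr) u)) (e z) = _ := dg.deriv
    rw [dg', ap, Function.comp_apply, iv, w_eq _ z1 z2]
    have w1 := h1 ((z - 6) / ka ^ (n + N) - 2)
    rw [add_zero] at w1
    generalize wd (n + N) (n + N) 10 ((z - 6) / ka ^ (n + N) - 2) = W at *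
    by_cases c : ka ^ (n + N) < z - 6 ∧ z - 6 < 3 * ka ^ (n + N)
    · have p := pl_in (n + N) 10 c
      have k0 := kp (n + N)
      have := hδ (x := (pl (n + N) (n + N) 10 z, z)) (by
        rw [Prod.dist_eq, max_lt_iff, Real.dist_eq, Real.dist_eq, abs_lt, abs_lt]
        exact ⟨⟨by linarith [p.1], by linarith [p.2]⟩, by linarith [c.1], by linarith [c.2]⟩)
      rw [Prod.dist_eq, max_lt_iff, Real.dist_eq, Real.dist_eq, sub_self, sub_zero,
        div_self d6.ne'] at this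
      refine ⟨by linarith [this.1], ?_⟩
      rw [mul_comm W, ← mul_assoc, ← div_eq_mul_inv]
      obtain ⟨b1, b2⟩ := abs_lt.1 this.2
      obtain ⟨b3, b4⟩ := abs_le.1 w1
      generalize deriv e (pl (n + N) (n + N) 10 z) / deriv e z = Q at *
      rw [abs_lt]; constructor <;> nlinarith
    · rw [pl_out _ _ c, sub_self, abs_zero, mul_comm W, ← mul_assoc,
        mul_inv_cancel₀ (ec.1.2 z).ne', one_mul]
      exact ⟨hε, by linarith⟩
  · have k0 := kp (n + N)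
    have c : ka ^ (n + N) < 6 + 2 * ka ^ (n + N) - 6 ∧ 6 + 2 * ka ^ (n + N) - 6 < 3 * ka ^ (n + N) :=
      ⟨by linarith, by linarith⟩
    have q : ∀ z, 6 ≤ z → z ≤ 6 + ka ^ (n + N) * 3 → e z ∈ Ioo a b := fun z z1 z2 =>
      ⟨e1.trans_le (e.monotone z1), (e.monotone z2).trans_lt (hN _ (Nat.le_add_left N n)).2⟩
    have q1 := q (6 + 2 * ka ^ (n + N)) (by linarith) (by linarith)
    obtain ⟨z1, z2⟩ := reg n _ q1.1.le q1.2.le
    have p := pl_in (n + N) 10 c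
    refine ⟨_, q1, ?_⟩
    beta_reduce
    rw [ap, w_eq _ z1 z2]
    refine ⟨q _ (by linarith [p.1]) (by linarith [p.2]), fun d => ?_⟩
    have d' := e.injective d
    rw [pl, show (6 + 2 * ka ^ (n + N) - 6) / ka ^ (n + N) - 2 = 0 by field_simp; ring,
      wf_in _ _ _ (by simp)] at d'
    have := ps_mono (n + N) (show ph (n + N) 0 < ph (n + N) 0 + 10 by linarith)
    rw [ps_ph _ (by simp)] at this
    nlinarith

end Pool.Agent.H.MP_5a4e9f_an
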