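import Pool.Agent.H.MP_5a4e9f_an.K

namespace Pool.Agent.H.MP_5a4e9f_an
open Set Filter Topology MeasureTheory

def Rel (g : Equiv.Perm UnitAddCircle) (f : ℝ ≃o ℝ) : Prop :=
  ∀ x : ℝ, g (x : UnitAddCircle) = ((f (24 * x) / 24 : ℝ) : UnitAddCircle)

lemma perd {f : ℝ ≃o ℝ} (hf : f ∈ Gc) :
    Function.Periodic (fun x : ℝ => ((f (24 * x) / 24 : ℝ) : UnitAddCircle)) 1 := fun x => by
  beta_reduce
  rw [mul_add, mul_one, hf.2, add_div, div_self (by norm_num), AddCircle.coe_add_period]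

lemma ex_ds {f : ℝ ≃o ℝ} (hf : f ∈ Gc) : ∃ g, Rel g f := by
  refine ⟨⟨(perd hf).lift, (perd (Gc.inv_mem hf)).lift, fun z => ?_, fun z => ?_⟩, fun x => rfl⟩
  · induction z using QuotientAddGroup.induction_on with
    | H x => simp only [Function.Periodic.lift_coe]; rw [mul_div_cancel₀ _ (by norm_num), iv]; simp
  · induction z using QuotientAddGroup.induction_on with
    | H x => simp only [Function.Periodic.lift_coe]; rw [mul_div_cancel₀ _ (by norm_num), vi]; simp

lemma Rel.mul {g g' f f'} (a : Rel g f) (b : Rel g' f') : Rel (g * g') (f * f') := fun x => by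
  rw [Equiv.Perm.mul_apply, b, a, mul_div_cancel₀ _ (by norm_num), ma]
lemma Rel.inv {g f} (a : Rel g f) : Rel g⁻¹ f⁻¹ := fun x => by
  rw [Equiv.Perm.inv_eq_iff_eq, a, mul_div_cancel₀ _ (by norm_num), vi]; simp
lemma Rel.one : Rel 1 1 := fun x => by simp

noncomputable def gr := (ex_ds rr_mem).choose
noncomputable def gh := (ex_ds h_mem).choose
noncomputable def gu := (ex_ds u_mem).choose
lemma gr_rel : Rel gr rr := (ex_ds rr_mem).choose_spec
lemma gh_rel : Rel gh h := (ex_ds h_mem).choose_spec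
lemma gu_rel : Rel gu u := (ex_ds u_mem).choose_spec
def GG : Subgroup (Equiv.Perm UnitAddCircle) := Subgroup.closure {gr, gh, gu}

lemma up {g} (hg : g ∈ GG) : ∃ f ∈ G, Rel g f := by
  induction hg using Subgroup.closure_induction with
  | mem x hx =>
    rcases hx with rfl | rfl | rfl
    exacts [⟨_, rr_G, gr_rel⟩, ⟨_, h_G, gh_rel⟩, ⟨_, u_G, gu_rel⟩]
  | one => exact ⟨1, G.one_mem, Rel.one⟩
  | mul x y _ _ a b =>
    obtain ⟨f, hf, a⟩ := a
    obtain ⟨f', hf', b⟩ := b
    exact ⟨_, G.mul_mem hf hf', a.mul b⟩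
  | inv x _ a =>
    obtain ⟨f, hf, a⟩ := a
    exact ⟨_, G.inv_mem hf, a.inv⟩

lemma down {f} (hf : f ∈ G) : ∃ g ∈ GG, Rel g f := by
  induction hf using Subgroup.closure_induction with
  | mem x hx =>
    rcases hx with rfl | rfl | rfl
    exacts [⟨_, Subgroup.subset_closure (by simp), gr_rel⟩, ⟨_, Subgroup.subset_closure (by simp), gh_rel⟩,
      ⟨_, Subgroup.subset_closure (by simp), gu_rel⟩]
  | one => exact ⟨1, GG.one_mem, Rel.one⟩
  | mul x y _ _ a b =>
    obtain ⟨f, hf, a⟩ := a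
    obtain ⟨f', hf', b⟩ := b
    exact ⟨_, GG.mul_mem hf hf', a.mul b⟩
  | inv x _ a =>
    obtain ⟨f, hf, a⟩ := a
    exact ⟨_, GG.inv_mem hf, a.inv⟩

lemma sc_diff {f} (hf : f ∈ Gc) : ContDiff ℝ 1 fun x : ℝ => f (24 * x) / 24 :=
  (hf.1.1.comp (contDiff_const.mul contDiff_id)).div_const _
lemma sc_der {f} (hf : f ∈ Gc) (x : ℝ) :
    deriv (fun x : ℝ => f (24 * x) / 24) x = deriv f (24 * x) := by
  have := ((hf.1.der (24 * x)).comp x ((hasDerivAt_id x).const_mul 24)).div_const 24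
  exact (hd_eq (g := fun x : ℝ => f (24 * x) / 24) this rfl (by ring)).deriv

lemma coe_eq {x y : ℝ} (e : (x : UnitAddCircle) = y) : ∃ m : ℤ, y - x = m := by
  obtain ⟨m, hm⟩ := QuotientAddGroup.eq.1 e
  exact ⟨m, by simp at hm; linarith⟩

lemma disc' {g} (hg : g ∈ GG) {F : ℝ → ℝ} (hF : ContDiff ℝ 1 F)
    (e : ∀ x : ℝ, g (x : UnitAddCircle) = (F x : ℝ)) (h1 : ∀ x, |F x - x| < 1 / 24)
    (h2 : ∀ x, |deriv F x - 1| ≤ 1 / 3) : g = 1 := by
  obtain ⟨f, hf, r⟩ := up hg
  have fc := G_le hf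
  have i : ∀ x, ∃ m : ℤ, F x - f (24 * x) / 24 = m := fun x => coe_eq ((r x).symm.trans (e x))
  have c : Continuous fun x => F x - f (24 * x) / 24 := hF.continuous.sub (sc_diff fc).continuous
  obtain ⟨m, hm⟩ := i 0
  have k : ∀ x, F x - f (24 * x) / 24 = m := fun x => by
    obtain ⟨l, hl⟩ := i x
    have no : ∀ j : ℤ, (j:ℝ) + 1 / 2 ∉ range fun x => F x - f (24 * x) / 24 := by
      rintro j ⟨y, hy⟩
      obtain ⟨p, hp⟩ := i y
      have : 2 * p = 2 * j + 1 := by exact_mod_cast (show 2 * (p:ℝ) = 2 * j + 1 by linarith)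
      omega
    rcases lt_trichotomy l m with a | a | a
    · have : (l:ℝ) + 1 ≤ m := by exact_mod_cast a
      exact absurd (mem_range_of_exists_le_of_exists_ge c ⟨x, by linarith⟩ ⟨0, by linarith⟩) (no l)
    · rw [hl, a]
    · have : (m:ℝ) + 1 ≤ l := by exact_mod_cast a
      exact absurd (mem_range_of_exists_le_of_exists_ge c ⟨0, by linarith⟩ ⟨x, by linarith⟩) (no m)
  have hf' := G.mul_mem (G.zpow_mem rr_G (3 * m)) hf
  have e2 : F = fun x => (rr ^ (3 * m) * f) (24 * x) / 24 := funext fun x => by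
    rw [ma, rz]; push_cast; linarith [k x]
  have := disc hf' (fun y => ?_) fun y => ?_
  · ext z
    induction z using QuotientAddGroup.induction_on with
    | H x => rw [e, e2, this]; simp
  · have := h1 (y / 24)
    rw [e2, abs_lt] at this
    simp only [mul_div_cancel₀ y (show (24:ℝ) ≠ 0 by norm_num)] at this
    rw [abs_lt]; constructor <;> linarith [this.1, this.2]
  · have := h2 (y / 24)
    rwa [e2, sc_der (G_le hf'), mul_div_cancel₀ y (by norm_num)] at this

lemma Rel.cont {g f} (r : Rel g f) : Continuous g := by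
  rw [(QuotientAddGroup.isQuotientMap_mk _).continuous_iff]
  have : (g : _ → _) ∘ (QuotientAddGroup.mk : ℝ → UnitAddCircle) =
    fun x => ((f (24 * x) / 24 : ℝ) : UnitAddCircle) := funext r
  rw [this]
  have := f.continuous
  exact (AddCircle.continuous_mk' 1).comp (by fun_prop)

lemma nonel (μ : Measure UnitAddCircle) [IsProbabilityMeasure μ] (a : μ.map gr = μ)
    (b : μ.map gh = μ) : False := by
  obtain ⟨N, hN⟩ : ∃ N : ℝ → UnitAddCircle → ℝ, N = fun (c : ℝ) z => ‖z + z + (c : UnitAddCircle)‖ := ⟨_, rfl⟩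
  have Nc : ∀ c, Continuous (N c) := fun c => by rw [hN]; fun_prop
  have n1 : ∀ c x : ℝ, ∃ n : ℤ, N c x = |x + x + c - n| := fun c x =>
    ⟨_, by rw [hN]; exact UnitAddCircle.norm_eq (x := x + x + c)⟩
  have n2 : ∀ c x : ℝ, ∀ n : ℤ, N c x ≤ |x + x + c - n| := fun c x n => by
    rw [hN]; exact (UnitAddCircle.norm_eq (x := x + x + c)).trans_le (round_le _ n)
  have mC : MeasurableSet {z | N 0 z < 1 / 36} := (isOpen_lt (Nc 0) continuous_const).measurableSet
  have mD : MeasurableSet {z | N (1 / 2) z ≤ 1 / 12} :=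
    (isClosed_le (Nc _) continuous_const).measurableSet
  have int : ∀ (n m : ℤ) (k : ℤ), (6 * ((n:ℝ) - m) + k) < 2 → -2 < (6 * ((n:ℝ) - m) + k) →
      6 * (n - m) + k < 2 ∧ -2 < 6 * (n - m) + k := fun n m k p q =>
    ⟨by exact_mod_cast p, by exact_mod_cast q⟩
  have d1 : Disjoint {z | N 0 z < 1 / 36} {z | N (1 / 2) z ≤ 1 / 12} := by
    refine disjoint_left.2 fun z p q => ?_
    induction z using QuotientAddGroup.induction_on with
    | H x =>
      obtain ⟨n, e1⟩ := n1 0 x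
      obtain ⟨m, e2⟩ := n1 (1 / 2) x
      rw [mem_ofPred_eq, e1, abs_lt] at p
      rw [mem_ofPred_eq, e2, abs_le] at q
      have := int n m 3 (by push_cast; linarith [p.1, q.2]) (by push_cast; linarith [p.2, q.1])
      omega
  have s1 : {z | N 0 z < 1 / 36}ᶜ ⊆ gh ⁻¹' {z | N (1 / 2) z ≤ 1 / 12} := by
    intro z p
    induction z using QuotientAddGroup.induction_on with
    | H x =>
      rw [mem_compl_iff, mem_ofPred_eq, not_lt] at p
      rw [mem_preimage, mem_ofPred_eq, gh_rel]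
      have f1 := Int.floor_le (x + x)
      have f2 := Int.lt_floor_add_one (x + x)
      generalize ⌊x + x⌋ = n at f1 f2
      have p1 := p.trans (n2 0 x n)
      have p2 := p.trans (n2 0 x (n + 1))
      rw [abs_of_nonneg (by linarith)] at p1
      rw [abs_of_nonpos (by push_cast; linarith)] at p2
      have q1 := h.monotone (show 1 / 3 + 12 * (n:ℝ) ≤ 24 * x by linarith)
      have q2 := h.monotone (show 24 * x ≤ -(1 / 3) + 12 * ((n + 1 : ℤ):ℝ) by linarith)
      rw [h_3] at q1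
      rw [h_m3] at q2
      refine (n2 _ _ (n + 1)).trans (abs_le.2 ⟨?_, ?_⟩) <;> push_cast at q2 ⊢ <;> linarith
  have d2 : Disjoint ({z | N 0 z < 1 / 36} ∪ {z | N (1 / 2) z ≤ 1 / 12})
      (gr ⁻¹' ({z | N 0 z < 1 / 36} ∪ {z | N (1 / 2) z ≤ 1 / 12})) := by
    refine disjoint_left.2 fun z p q => ?_
    induction z using QuotientAddGroup.induction_on with
    | H x =>
      rw [mem_preimage, gr_rel, show rr (24 * x) / 24 = x + 1 / 3 by
        rw [rr, mkI_apply]; ring] at q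
      obtain ⟨n, e1⟩ := n1 0 x
      obtain ⟨m, e2⟩ := n1 (1 / 2) x
      obtain ⟨n', e3⟩ := n1 0 (x + 1 / 3)
      obtain ⟨m', e4⟩ := n1 (1 / 2) (x + 1 / 3)
      simp only [mem_union, mem_ofPred_eq, e1, e2, e3, e4, abs_lt, abs_le] at p q
      rcases p with p | p <;> rcases q with q | q
      · have := int n n' 4 (by push_cast; linarith [p.1, q.2]) (by push_cast; linarith [p.2, q.1])
        omega
      · have := int n m' 8 (by push_cast; linarith [p.1, q.2]) (by push_cast; linarith [p.2, q.1])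
        have := int n m' 6 (by push_cast; linarith [p.1, q.2]) (by push_cast; linarith [p.2, q.1])
        have : (6 * ((n:ℝ) - m') + 7) < 1 ∧ -1 < (6 * ((n:ℝ) - m') + 7) :=
          ⟨by linarith [p.1, q.2], by linarith [p.2, q.1]⟩
        have : 6 * (n - m') + 7 < 1 ∧ -1 < 6 * (n - m') + 7 := by exact_mod_cast this
        omega
      · have : (6 * ((m:ℝ) - n') + 1) < 1 ∧ -1 < (6 * ((m:ℝ) - n') + 1) :=
          ⟨by linarith [p.1, q.2], by linarith [p.2, q.1]⟩
        have : 6 * (m - n') + 1 < 1 ∧ -1 < 6 * (m - n') + 1 := by exact_mod_cast this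
        omega
      · have := int m m' 4 (by push_cast; linarith [p.1, q.2]) (by push_cast; linarith [p.2, q.1])
        omega
  have m1 := measure_mono (μ := μ) s1
  rw [← Measure.map_apply gh_rel.cont.measurable mD, b] at m1
  have m2 : 1 ≤ μ ({z | N 0 z < 1 / 36} ∪ {z | N (1 / 2) z ≤ 1 / 12}) := by
    rw [measure_union d1 mD, ← measure_univ (μ := μ), ← measure_add_measure_compl mC]
    gcongr
  have m3 := prob_le_one (μ := μ) (s := ({z | N 0 z < 1 / 36} ∪ {z | N (1 / 2) z ≤ 1 / 12}) ∪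
      (gr ⁻¹' ({z | N 0 z < 1 / 36} ∪ {z | N (1 / 2) z ≤ 1 / 12})))
  rw [measure_union d2 (gr_rel.cont.measurable (mC.union mD)),
    ← Measure.map_apply gr_rel.cont.measurable (mC.union mD), a] at m3
  exact absurd ((add_le_add m2 m2).trans m3) (by norm_num)

end Pool.Agent.H.MP_5a4e9f_an
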